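import Pool.Agent.H305.SL.Fin2

/-!
The layer cake formula for the Gaussian weight.
-/

set_option autoImplicit false

open MeasureTheory Set Metric Filter Topology
open scoped ContDiff ENNReal

namespace Pool.Agent.H305.PL

open H459R3.NS W221.NS Pool.Agent.V1183.PM Pool.Agent.H305.OS Pool.Agent.H305.SL

/-- The density of the layer cake formula. -/
noncomputable def kk (ν τ ρ : ℝ) : ℝ := 2 * (1 / (4 * ν * τ)) * ρ * gk ν τ ρ

section
variable {ν τ : ℝ}

lemma kk_nonneg (hν : 0 < ν) (hτ : 0 < τ) {ρ : ℝ} (hρ : 0 ≤ ρ) : 0 ≤ kk ν τ ρ := by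
  unfold kk
  have := gk_nonneg ν τ ρ
  positivity

lemma gk_deriv (ν τ ρ : ℝ) : HasDerivAt (fun ρ => - gk ν τ ρ) (kk ν τ ρ) ρ := by
  have h1 : HasDerivAt (fun ρ : ℝ => -(1 / (4 * ν * τ)) * ρ ^ 2) (-(1 / (4 * ν * τ)) * (2 * ρ)) ρ := by
    have := (hasDerivAt_pow 2 ρ).const_mul (-(1 / (4 * ν * τ)))
    simpa using this
  have h2 := (h1.exp.const_mul (√τ)⁻¹).neg
  have e : (fun ρ => - gk ν τ ρ) = -(fun ρ : ℝ => (√τ)⁻¹ * Real.exp (-(1 / (4 * ν * τ)) * ρ ^ 2)) := rfl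
  rw [e]
  refine h2.congr_deriv ?_
  unfold kk gk
  ring

lemma gk_lim (hν : 0 < ν) (hτ : 0 < τ) : Tendsto (fun ρ => - gk ν τ ρ) atTop (𝓝 0) := by
  have hb : 0 < 1 / (4 * ν * τ) := by positivity
  have h1 : Tendsto (fun ρ : ℝ => -(1 / (4 * ν * τ)) * ρ ^ 2) atTop atBot :=
    (tendsto_pow_atTop two_ne_zero).const_mul_atTop_of_neg (by linarith)
  have h2 := ((Real.tendsto_exp_atBot.comp h1).const_mul (√τ)⁻¹).neg
  rw [mul_zero, neg_zero] at h2
  exact h2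

lemma kk_intOn (hν : 0 < ν) (hτ : 0 < τ) {a : ℝ} (ha : 0 ≤ a) : IntegrableOn (kk ν τ) (Ioi a) :=
  integrableOn_Ioi_deriv_of_nonneg' (fun x _ => gk_deriv ν τ x)
    (fun _ hx => kk_nonneg hν hτ (ha.trans (le_of_lt hx))) (gk_lim hν hτ)

lemma kk_int (hν : 0 < ν) (hτ : 0 < τ) {a : ℝ} (ha : 0 ≤ a) : ∫ ρ in Ioi a, kk ν τ ρ = gk ν τ a := by
  rw [integral_Ioi_of_hasDerivAt_of_tendsto' (fun x _ => gk_deriv ν τ x) (kk_intOn hν hτ ha)
    (gk_lim hν hτ)]
  ring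

lemma kk1_fun (ν τ : ℝ) : (fun ρ : ℝ => kk ν τ ρ * ρ) = fun ρ =>
    2 * (1 / (4 * ν * τ)) * (√τ)⁻¹ * (ρ ^ (2 : ℝ) * Real.exp (-(1 / (4 * ν * τ)) * ρ ^ (2 : ℝ))) := by
  funext ρ
  unfold kk gk
  rw [Real.rpow_two]
  ring

lemma kk1_intOn (hν : 0 < ν) (hτ : 0 < τ) : IntegrableOn (fun ρ => kk ν τ ρ * ρ) (Ioi 0) := by
  rw [kk1_fun]
  refine Integrable.const_mul ?_ _
  exact integrableOn_rpow_mul_exp_neg_mul_rpow (by norm_num) (by norm_num) (by positivity)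

lemma kk1_int (hν : 0 < ν) (hτ : 0 < τ) : ∫ ρ in Ioi 0, kk ν τ ρ * ρ = √(Real.pi * ν) := by
  rw [kk1_fun, integral_const_mul,
    integral_rpow_mul_exp_neg_mul_rpow (by norm_num) (by norm_num) (by positivity)]
  have e1 : ((2 : ℝ) + 1) / 2 = 1 / 2 + 1 := by norm_num
  rw [e1, Real.Gamma_add_one (by norm_num), Real.Gamma_one_half_eq]
  have e2 : (1 / (4 * ν * τ) : ℝ) ^ (-(2 + 1) / 2 : ℝ) = (4 * ν * τ) * √(4 * ν * τ) := by
    have hb : (0 : ℝ) < 4 * ν * τ := by positivity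
    rw [one_div, Real.inv_rpow hb.le, ← Real.rpow_neg hb.le, Real.sqrt_eq_rpow,
      show (-(-(2 + 1) / 2) : ℝ) = 1 + 1 / 2 by norm_num, Real.rpow_add hb, Real.rpow_one]
  rw [e2]
  have hs : 0 < √τ := Real.sqrt_pos.2 hτ
  have e3 : √(4 * ν * τ) = 2 * √ν * √τ := by
    rw [Real.sqrt_mul (by positivity), Real.sqrt_mul (by norm_num),
      show (4 : ℝ) = 2 ^ 2 by norm_num, Real.sqrt_sq (by norm_num)]
  rw [e3, Real.sqrt_mul Real.pi_pos.le]
  field_simp

/-- The layer cake inequality. -/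
lemma cake {c : Fin 3} {y M : ℝ} (hν : 0 < ν) (hτ : 0 < τ) {J : V → ℝ} (hJ : Integrable J)
    (h : ∀ ρ : ℝ, 0 < ρ → ∫ x in slb c y ρ, J x ≤ M * ρ) :
    ∫ x, J x * gk ν τ (x c - y) ≤ M * √(Real.pi * ν) := by
  obtain ⟨S, hS⟩ : ∃ S : Set (V × ℝ), S = {z | |z.1 c - y| < z.2} := ⟨_, rfl⟩
  have hSm : MeasurableSet S := by
    rw [hS]
    exact measurableSet_lt (by fun_prop) (by fun_prop)
  have hprod : Integrable (fun z : V × ℝ => J z.1 * kk ν τ z.2)
      ((volume : Measure V).prod (volume.restrict (Ioi (0 : ℝ)))) :=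
    hJ.mul_prod (kk_intOn hν hτ le_rfl)
  have hind : Integrable (Function.uncurry fun (x : V) (ρ : ℝ) =>
      S.indicator (fun z : V × ℝ => J z.1 * kk ν τ z.2) (x, ρ))
      ((volume : Measure V).prod (volume.restrict (Ioi (0 : ℝ)))) := hprod.indicator hSm
  have hsw := integral_integral_swap hind
  have e1 : ∀ x : V, ∫ ρ in Ioi (0 : ℝ), S.indicator (fun z : V × ℝ => J z.1 * kk ν τ z.2) (x, ρ)
      = J x * gk ν τ (x c - y) := by
    intro x
    have e2 : (fun ρ : ℝ => S.indicator (fun z : V × ℝ => J z.1 * kk ν τ z.2) (x, ρ))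
        = (Ioi |x c - y|).indicator fun ρ => J x * kk ν τ ρ := by
      funext ρ
      by_cases hρ : |x c - y| < ρ
      · rw [indicator_of_mem (by rw [hS]; exact hρ), indicator_of_mem (by exact hρ)]
      · rw [indicator_of_notMem (by rw [hS]; exact hρ), indicator_of_notMem (by exact hρ)]
    rw [e2, setIntegral_indicator measurableSet_Ioi, Ioi_inter_Ioi,
      sup_eq_right.2 (abs_nonneg (x c - y)), integral_const_mul, kk_int hν hτ (abs_nonneg _)]
    congr 1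
    unfold gk
    rw [sq_abs]
  have e3 : ∀ ρ ∈ Ioi (0 : ℝ), ∫ x, S.indicator (fun z : V × ℝ => J z.1 * kk ν τ z.2) (x, ρ)
      = kk ν τ ρ * ∫ x in slb c y ρ, J x := by
    intro ρ _
    have e4 : (fun x : V => S.indicator (fun z : V × ℝ => J z.1 * kk ν τ z.2) (x, ρ))
        = (slb c y ρ).indicator fun x => kk ν τ ρ * J x := by
      funext x
      by_cases hx : |x c - y| < ρ
      · rw [indicator_of_mem (by rw [hS]; exact hx), indicator_of_mem (by exact hx), mul_comm]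
      · rw [indicator_of_notMem (by rw [hS]; exact hx), indicator_of_notMem (by exact hx)]
    rw [e4, integral_indicator slb_meas, integral_const_mul]
  have e5 : ∫ x, J x * gk ν τ (x c - y)
      = ∫ ρ in Ioi (0 : ℝ), kk ν τ ρ * ∫ x in slb c y ρ, J x := by
    rw [← setIntegral_congr_fun measurableSet_Ioi e3, ← hsw]
    exact integral_congr_ae (Eventually.of_forall fun x => (e1 x).symm)
  rw [e5, ← kk1_int hν hτ, ← integral_const_mul]
  refine setIntegral_mono_on ?_ ((kk1_intOn hν hτ).const_mul M) measurableSet_Ioi fun ρ hρ => ?_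
  · exact (hind.integral_prod_right).congr ((ae_restrict_iff' measurableSet_Ioi).2
      (Eventually.of_forall e3))
  · calc kk ν τ ρ * ∫ x in slb c y ρ, J x ≤ kk ν τ ρ * (M * ρ) :=
          mul_le_mul_of_nonneg_left (h ρ hρ) (kk_nonneg hν hτ (le_of_lt hρ))
      _ = M * (kk ν τ ρ * ρ) := by ring

end

end Pool.Agent.H305.PL
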