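import Pool.Agent.H305.PL.Lei

/-!
The local energy inequality in a ball, with the flux estimated.
-/

set_option autoImplicit false

open MeasureTheory Set Metric Filter Topology
open scoped ContDiff ENNReal

namespace Pool.Agent.H305.PL

open H459R3.NS W221.NS Pool.Agent.V1183.PM Pool.Agent.H305.OS Pool.Agent.H305.SL
open Pool.Agent.W583.MD (sm_pd pd_mul')

section
variable {c a b : Fin 3} {y ρ : ℝ} {x₀ : V} {w : Fin 3 → V → ℝ} {q : V → ℝ}

lemma flB (hT : Tri c a b) (hρ : 0 < ρ) (mw : ∀ i, Measurable (w i)) (mq : Measurable q) :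
    ENNReal.ofReal |flW w q (cz c a b x₀ ρ)|
      ≤ ∑ j, ENNReal.ofReal (2 * B1 / ρ) * fB w q (w j) x₀ (3 * ρ) := by
  have hB1 := B1_one
  have hn : Measurable (nw w) := by
    unfold nw
    exact Finset.measurable_sum _ fun i _ => (mw i).pow_const 2
  have m0 : ∀ j, Measurable fun x => ENNReal.ofReal ((nw w x + 2 * |q x|) * |w j x|) := fun j =>
    ((hn.add (mq.norm.const_mul 2)).mul (mw j).norm).ennreal_ofReal
  have e1 : ∑ j, ENNReal.ofReal (2 * B1 / ρ) * fB w q (w j) x₀ (3 * ρ)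
      = ∫⁻ x, (ball x₀ (3 * ρ)).indicator (fun x => ENNReal.ofReal (2 * B1 / ρ)
        * ∑ j, ENNReal.ofReal ((nw w x + 2 * |q x|) * |w j x|)) x := by
    rw [lintegral_indicator measurableSet_ball, lintegral_const_mul' _ _ ENNReal.ofReal_ne_top,
      lintegral_finsetSum _ fun j _ => m0 j, ← Finset.mul_sum]
    rfl
  rw [e1]
  unfold flW
  apply ofReal_int_le
  intro x
  by_cases hx : x ∈ ball x₀ (3 * ρ)
  · rw [indicator_of_mem hx, ← ENNReal.ofReal_sum_of_nonneg fun j _ => mul_nonneg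
      (add_nonneg (nw_nonneg w x) (by positivity)) (abs_nonneg _),
      ← ENNReal.ofReal_mul (by positivity)]
    apply ENNReal.ofReal_le_ofReal
    rw [abs_mul, ← Finset.mul_sum]
    have h1 : |(∑ i, w i x ^ 2) + 2 * q x| ≤ nw w x + 2 * |q x| := by
      refine (abs_add_le _ _).trans (add_le_add (le_of_eq ?_) (le_of_eq ?_))
      · exact abs_of_nonneg (nw_nonneg w x)
      · rw [abs_mul, abs_of_pos (by norm_num : (0 : ℝ) < 2)]
    have h2 : |∑ j, w j x * H459R3.NS.pd j (cz c a b x₀ ρ) x| ≤ 2 * B1 / ρ * ∑ j, |w j x| := by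
      refine (Finset.abs_sum_le_sum_abs _ _).trans ?_
      rw [Finset.mul_sum]
      refine Finset.sum_le_sum fun j _ => ?_
      rw [abs_mul, mul_comm]
      exact mul_le_mul_of_nonneg_right (pd_cz_le hT hρ j x) (abs_nonneg _)
    have h3 : 0 ≤ nw w x + 2 * |q x| := add_nonneg (nw_nonneg w x) (by positivity)
    calc |(∑ i, w i x ^ 2) + 2 * q x| * |∑ j, w j x * H459R3.NS.pd j (cz c a b x₀ ρ) x|
        ≤ (nw w x + 2 * |q x|) * (2 * B1 / ρ * ∑ j, |w j x|) :=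
          mul_le_mul h1 h2 (abs_nonneg _) h3
      _ = _ := by ring
  · rw [indicator_of_notMem hx]
    have h0 : ∑ j, w j x * H459R3.NS.pd j (cz c a b x₀ ρ) x = 0 :=
      Finset.sum_eq_zero fun j _ => by rw [pd_cz_out hT hρ j hx, mul_zero]
    rw [h0]
    simp

lemma enB (hT : Tri c a b) (hρ : 0 < ρ) :
    ENNReal.ofReal |enW w (lp (cz c a b x₀ ρ))|
      ≤ ENNReal.ofReal (3 * B2c / ρ ^ 2) * eB w x₀ (3 * ρ) := by
  have hB := B2c_one
  unfold eB
  rw [← lintegral_const_mul' _ _ ENNReal.ofReal_ne_top, ← lintegral_indicator measurableSet_ball]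
  unfold enW
  apply ofReal_int_le
  intro x
  by_cases hx : x ∈ ball x₀ (3 * ρ)
  · rw [indicator_of_mem hx, ← ENNReal.ofReal_mul (by positivity)]
    apply ENNReal.ofReal_le_ofReal
    rw [abs_mul, mul_comm]
    have h1 : |∑ i, w i x ^ 2| = nw w x := abs_of_nonneg (nw_nonneg w x)
    rw [h1]
    exact mul_le_mul_of_nonneg_right (lp_cz_le hT hρ x) (nw_nonneg w x)
  · rw [indicator_of_notMem hx, lp_cz_out hT hρ hx]
    simp

end

lemma fB_aem {ν T : ℝ} {u : ℝ → V → V} {p : ℝ → V → ℝ} (h : HS ν T u p) (j : Fin 3) (x₀ : V) (ρ : ℝ)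
    {I : Set ℝ} (hI : MeasurableSet I) (hIT : I ⊆ Ioo 0 T) :
    AEMeasurable (fun τ => fB (cw u τ) (p τ) (cw u τ j) x₀ ρ) (volume.restrict I) := by
  unfold fB
  refine C_aem (F := fun τ x => (nw (cw u τ) x + 2 * |p τ x|) * |cw u τ j x|) ?_ _ hI hIT
  have c1 : ContinuousOn (fun z : ℝ × V => nw (cw u z.1) z.2) (Ioo 0 T ×ˢ univ) :=
    (HS.j_nw h).continuousOn
  have c2 : ContinuousOn (fun z : ℝ × V => p z.1 z.2) (Ioo 0 T ×ˢ univ) := h.jp.continuousOn
  have c3 : ContinuousOn (fun z : ℝ × V => cw u z.1 j z.2) (Ioo 0 T ×ˢ univ) := (h.ju j).continuousOn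
  exact (c1.add (continuousOn_const.mul c2.abs)).mul c3.abs

/-- The local energy inequality. -/
theorem LEB : ∃ C : ℝ, 0 ≤ C ∧ ∀ (c : Fin 3) (ν T : ℝ) (u : ℝ → V → V) (p : ℝ → V → ℝ)
    (t₀ y A : ℝ), PY ν T u p c t₀ y A → ∀ (x₀ : V) (ρ t₁ s η : ℝ), x₀ c = y → 0 < ρ →
    t₀ ≤ t₁ → t₁ ≤ s → s < T → s - t₁ ≤ ρ ^ 2 → 0 ≤ η → η ≤ 1 →
    ∫⁻ τ in Ioc t₁ s, eB (cw u τ) x₀ (3 * ρ) ≤ ENNReal.ofReal (η * (3 * ρ) ^ 3) →
    ENNReal.ofReal ν * ∫⁻ τ in Ioc t₁ s, ∫⁻ x in ball x₀ ρ, ENNReal.ofReal (gw (cw u τ) x)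
      ≤ eB (cw u t₁) x₀ (3 * ρ)
        + ENNReal.ofReal (C * (1 + ν) * (1 + A) ^ 2 * η ^ (1 / 12 : ℝ) * ρ) := by
  obtain ⟨CF, hCF, hLF⟩ := LF
  have hB1 := B1_one
  have hB2 := B2c_one
  refine ⟨54 * B1 * CF + 81 * B2c, by positivity, ?_⟩
  intro c ν T u p t₀ y A h x₀ ρ t₁ s η hx hρ ht₁ hts hs hk hη0 hη1 hY
  obtain ⟨a, b, hT⟩ := SL.exists_tri c
  have hν := h.hν
  have hA := h.A0
  have ht₁0 : 0 < t₁ := h.t0.trans_le ht₁
  have hI : Ioc t₁ s ⊆ Ioo 0 T := fun τ hτ => ⟨ht₁0.trans hτ.1, hτ.2.trans_lt hs⟩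
  have hI' : ∀ τ ∈ Icc t₁ s, τ ∈ Ioo 0 T := fun τ hτ => ⟨ht₁0.trans_le hτ.1, hτ.2.trans_lt hs⟩
  obtain ⟨ζ, hζe⟩ : ∃ ζ, ζ = cz c a b x₀ ρ := ⟨_, rfl⟩
  have hζ : BF ζ := by rw [hζe]; exact cz_BF hρ
  have hζ0 : ∀ x, 0 ≤ ζ x := fun x => by rw [hζe]; exact cz_nonneg x
  have key := lin h.toHS ht₁0 hts hs hζ hζ0
  -- the left-hand side
  have hL : ENNReal.ofReal ν * ∫⁻ τ in Ioc t₁ s, ∫⁻ x in ball x₀ ρ, ENNReal.ofReal (gw (cw u τ) x)
      ≤ ∫⁻ τ in Ioc t₁ s, ENNReal.ofReal (ν * dsW (cw u τ) ζ) := by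
    rw [← lintegral_const_mul' _ _ ENNReal.ofReal_ne_top]
    refine setLIntegral_mono' measurableSet_Ioc fun τ hτ => ?_
    rw [ENNReal.ofReal_mul hν.le, dsW_lint (fun i => h.cw_HF (hI hτ) i) hζ hζ0]
    refine mul_le_mul_right ?_ _
    rw [← lintegral_indicator measurableSet_ball]
    refine lintegral_mono fun x => ?_
    simp only
    by_cases hxb : x ∈ ball x₀ ρ
    · rw [indicator_of_mem hxb, hζe, cz_one hρ hxb, ENNReal.ofReal_one, mul_one]
    · rw [indicator_of_notMem hxb]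
      exact zero_le
  -- the initial energy
  have hR1 : ENNReal.ofReal (enW (cw u t₁) ζ) ≤ eB (cw u t₁) x₀ (3 * ρ) := by
    rw [enW_lint (fun i => h.cw_HF (hI' t₁ ⟨le_rfl, hts⟩) i) hζ hζ0]
    unfold eB
    rw [← lintegral_indicator measurableSet_ball]
    refine lintegral_mono fun x => ?_
    simp only
    by_cases hxb : x ∈ ball x₀ (3 * ρ)
    · rw [indicator_of_mem hxb]
      calc ENNReal.ofReal (nw (cw u t₁) x) * ENNReal.ofReal (ζ x)
          ≤ ENNReal.ofReal (nw (cw u t₁) x) * 1 := by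
            refine mul_le_mul_right ?_ _
            rw [ENNReal.ofReal_le_one, hζe]
            exact cz_le x
        _ = _ := mul_one _
    · have h0 : ζ x = 0 := by
        rw [hζe]
        apply cz_out hT hρ
        intro h2
        exact hxb (ball_subset_ball (by linarith) h2)
      rw [h0]
      simp
  -- the flux
  have hx3 : s - t₁ ≤ (3 * ρ) ^ 2 := by nlinarith
  have hR2 : ∫⁻ τ in Ioc t₁ s, ENNReal.ofReal |flW (cw u τ) (p τ) ζ + ν * enW (cw u τ) (lp ζ)|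
      ≤ ENNReal.ofReal ((54 * B1 * CF + 81 * B2c) * (1 + ν) * (1 + A) ^ 2 * η ^ (1 / 12 : ℝ) * ρ) := by
    have hpt : ∀ τ ∈ Ioc t₁ s, ENNReal.ofReal |flW (cw u τ) (p τ) ζ + ν * enW (cw u τ) (lp ζ)|
        ≤ (∑ j, ENNReal.ofReal (2 * B1 / ρ) * fB (cw u τ) (p τ) (cw u τ j) x₀ (3 * ρ))
          + ENNReal.ofReal ν * (ENNReal.ofReal (3 * B2c / ρ ^ 2) * eB (cw u τ) x₀ (3 * ρ)) := by
      intro τ hτ
      have hw : ∀ i, HF (cw u τ i) := fun i => h.cw_HF (hI hτ) i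
      calc ENNReal.ofReal |flW (cw u τ) (p τ) ζ + ν * enW (cw u τ) (lp ζ)|
          ≤ ENNReal.ofReal |flW (cw u τ) (p τ) ζ| + ENNReal.ofReal ν
            * ENNReal.ofReal |enW (cw u τ) (lp ζ)| := by
            rw [← ENNReal.ofReal_mul hν.le, ← ENNReal.ofReal_add (abs_nonneg _) (by positivity)]
            apply ENNReal.ofReal_le_ofReal
            refine (abs_add_le _ _).trans (le_of_eq ?_)
            rw [abs_mul, abs_of_pos hν]
        _ ≤ _ := by
            rw [hζe]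
            exact add_le_add (flB hT hρ (fun i => (hw i).sm.continuous.measurable)
              (h.p_HF (hI hτ)).sm.continuous.measurable) (mul_le_mul_right (enB hT hρ) _)
    refine (setLIntegral_mono' measurableSet_Ioc hpt).trans ?_
    have mE : AEMeasurable (fun τ => eB (cw u τ) x₀ (3 * ρ)) (volume.restrict (Ioc t₁ s)) :=
      eB_aem h.toHS x₀ _ measurableSet_Ioc hI
    have mF : ∀ j, AEMeasurable (fun τ => ENNReal.ofReal (2 * B1 / ρ)
        * fB (cw u τ) (p τ) (cw u τ j) x₀ (3 * ρ)) (volume.restrict (Ioc t₁ s)) := fun j =>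
      (fB_aem h.toHS j x₀ _ measurableSet_Ioc hI).const_mul _
    rw [lintegral_add_right' _ ((mE.const_mul _).const_mul _), lintegral_finset_sum' _ fun j _ => mF j,
      lintegral_const_mul' _ _ ENNReal.ofReal_ne_top, lintegral_const_mul' _ _ ENNReal.ofReal_ne_top]
    simp only [lintegral_const_mul' _ _ (ENNReal.ofReal_ne_top (r := 2 * B1 / ρ))]
    have hη12 : η ≤ η ^ (1 / 12 : ℝ) := by
      calc η = η ^ (1 : ℝ) := (Real.rpow_one η).symm
        _ ≤ _ := Real.rpow_le_rpow_of_exponent_ge' hη0 hη1 (by norm_num) (by norm_num)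
    have hη12' : 0 ≤ η ^ (1 / 12 : ℝ) := Real.rpow_nonneg hη0 _
    calc (∑ j, ENNReal.ofReal (2 * B1 / ρ) * ∫⁻ τ in Ioc t₁ s,
            fB (cw u τ) (p τ) (cw u τ j) x₀ (3 * ρ))
          + ENNReal.ofReal ν * (ENNReal.ofReal (3 * B2c / ρ ^ 2)
            * ∫⁻ τ in Ioc t₁ s, eB (cw u τ) x₀ (3 * ρ))
        ≤ (∑ _j : Fin 3, ENNReal.ofReal (2 * B1 / ρ)
            * ENNReal.ofReal (CF * (1 + A) ^ 2 * η ^ (1 / 12 : ℝ) * (3 * ρ) ^ 2))
          + ENNReal.ofReal ν * (ENNReal.ofReal (3 * B2c / ρ ^ 2) * ENNReal.ofReal (η * (3 * ρ) ^ 3)) := by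
          refine add_le_add (Finset.sum_le_sum fun j _ => mul_le_mul_right ?_ _)
            (mul_le_mul_right (mul_le_mul_right hY _) _)
          exact hLF c ν T u p t₀ y A h j x₀ (3 * ρ) t₁ s η hx (by linarith) ht₁ hts hs hx3 hη0 hY
      _ = ENNReal.ofReal (54 * B1 * CF * (1 + A) ^ 2 * η ^ (1 / 12 : ℝ) * ρ + 81 * ν * B2c * η * ρ) := by
          rw [Finset.sum_const, Finset.card_univ, Fintype.card_fin, nsmul_eq_mul,
            show ((3 : ℕ) : ℝ≥0∞) = ENNReal.ofReal 3 by norm_num,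
            ← ENNReal.ofReal_mul (by positivity), ← ENNReal.ofReal_mul (by positivity),
            ← ENNReal.ofReal_mul (by positivity), ← ENNReal.ofReal_mul (by positivity),
            ← ENNReal.ofReal_add (by positivity) (by positivity)]
          congr 1
          field_simp
          ring
      _ ≤ _ := by
          apply ENNReal.ofReal_le_ofReal
          have a1 : 54 * B1 * CF * (1 + A) ^ 2 * η ^ (1 / 12 : ℝ) * ρ
              ≤ 54 * B1 * CF * (1 + ν) * (1 + A) ^ 2 * η ^ (1 / 12 : ℝ) * ρ := by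
            have : 0 ≤ 54 * B1 * CF * (1 + A) ^ 2 * η ^ (1 / 12 : ℝ) * ρ := by positivity
            nlinarith
          have a2 : 81 * ν * B2c * η * ρ ≤ 81 * B2c * (1 + ν) * (1 + A) ^ 2 * η ^ (1 / 12 : ℝ) * ρ := by
            have b1 : ν * η ≤ (1 + ν) * η ^ (1 / 12 : ℝ) :=
              mul_le_mul (by linarith) hη12 hη0 (by positivity)
            have b2 : 1 ≤ (1 + A) ^ 2 := one_le_pow₀ (by linarith)
            calc 81 * ν * B2c * η * ρ = 81 * B2c * ρ * (ν * η) * 1 := by ring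
              _ ≤ 81 * B2c * ρ * ((1 + ν) * η ^ (1 / 12 : ℝ)) * (1 + A) ^ 2 := by
                  apply mul_le_mul _ b2 zero_le_one (by positivity)
                  exact mul_le_mul_of_nonneg_left b1 (by positivity)
              _ = _ := by ring
          linarith
  calc ENNReal.ofReal ν * ∫⁻ τ in Ioc t₁ s, ∫⁻ x in ball x₀ ρ, ENNReal.ofReal (gw (cw u τ) x)
      ≤ ENNReal.ofReal (enW (cw u s) ζ) + ∫⁻ τ in Ioc t₁ s, ENNReal.ofReal (ν * dsW (cw u τ) ζ) :=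
        hL.trans le_add_self
    _ ≤ _ := key.trans (add_le_add hR1 hR2)

end Pool.Agent.H305.PL
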