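import Pool.Agent.H305.PL.Lft

/-!
The local energy inequality in a ball.
-/

set_option autoImplicit false

open MeasureTheory Set Metric Filter Topology
open scoped ContDiff ENNReal

namespace Pool.Agent.H305.PL

open H459R3.NS W221.NS Pool.Agent.V1183.PM Pool.Agent.H305.OS Pool.Agent.H305.SL
open Pool.Agent.W583.MD (sm_pd pd_mul')

section
variable {c a b : Fin 3} {y ρ : ℝ} {x₀ : V} {x : V}

/-- The cut-off. -/
noncomputable def cz (c a b : Fin 3) (x₀ : V) (ρ : ℝ) : V → ℝ := fun x =>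
  hc a b x₀ ρ x * ct c (x₀ c) ρ x

lemma cz_BF (hρ : 0 < ρ) : BF (cz c a b x₀ ρ) := UB.mul (hc_BF hρ) (ct_BF hρ)

lemma cz_nonneg (x : V) : 0 ≤ cz c a b x₀ ρ x := mul_nonneg (hc_nonneg x) (ct_nonneg x)

lemma cz_le (x : V) : cz c a b x₀ ρ x ≤ 1 := mul_le_one₀ (hc_le x) (ct_nonneg x) (ct_le x)

lemma coord_ball {r : ℝ} (hx : x ∈ ball x₀ r) (i : Fin 3) : |x i - x₀ i| < r := by
  have h2 := norm_le_pi_norm (x - x₀) i
  rw [mem_ball, dist_eq_norm] at hx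
  rw [Real.norm_eq_abs, Pi.sub_apply] at h2
  exact h2.trans_lt hx

lemma cz_one (hρ : 0 < ρ) (hx : x ∈ ball x₀ ρ) : cz c a b x₀ ρ x = 1 := by
  unfold cz
  rw [hc_one hρ (coord_ball hx a) (coord_ball hx b), ct_one hρ (coord_ball hx c), one_mul]

lemma cz_out (hT : Tri c a b) (hρ : 0 < ρ) (hx : x ∉ ball x₀ (2 * ρ)) : cz c a b x₀ ρ x = 0 := by
  unfold cz
  by_cases h1 : |x a - x₀ a| < 2 * ρ ∧ |x b - x₀ b| < 2 * ρ
  · by_cases h2 : |x c - x₀ c| < 2 * ρ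
    · exfalso
      apply hx
      rw [mem_ball, dist_pi_lt_iff (by linarith)]
      intro i
      rw [Real.dist_eq]
      rcases hT.cases i with h | h | h
      · rw [h]; exact h2
      · rw [h]; exact h1.1
      · rw [h]; exact h1.2
    · rw [ct_out hρ h2, mul_zero]
  · rw [hc_out hρ h1, zero_mul]

/-- The complement of a closed ball. -/
lemma out_open (x₀ : V) (r : ℝ) : IsOpen {x : V | r < dist x x₀} :=
  isOpen_lt continuous_const (by fun_prop)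

lemma pd_cz_out (hT : Tri c a b) (hρ : 0 < ρ) (m : Fin 3) (hx : x ∉ ball x₀ (3 * ρ)) :
    H459R3.NS.pd m (cz c a b x₀ ρ) x = 0 := by
  rw [pd_loc (g := fun _ => 0) (out_open x₀ (2 * ρ)) (fun y hy => ?_) m]
  · unfold H459R3.NS.pd
    simp
  · rw [mem_ball, not_lt] at hx
    show 2 * ρ < dist x x₀
    linarith
  · apply cz_out hT hρ
    rw [mem_ball, not_lt]
    exact le_of_lt hy

lemma pd_cz (m : Fin 3) (hρ : 0 < ρ) (x : V) : H459R3.NS.pd m (cz c a b x₀ ρ) x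
    = hc a b x₀ ρ x * H459R3.NS.pd m (ct c (x₀ c) ρ) x
      + H459R3.NS.pd m (hc a b x₀ ρ) x * ct c (x₀ c) ρ x :=
  pd_mul' (hc_BF hρ).sm (ct_BF hρ).sm m x

lemma pd_cz_le (hT : Tri c a b) (hρ : 0 < ρ) (m : Fin 3) (x : V) :
    |H459R3.NS.pd m (cz c a b x₀ ρ) x| ≤ 2 * B1 / ρ := by
  have h1 := pd_hc_le (x₀ := x₀) hT hρ m x
  have h2 := pd_ct_le (c := c) (y := x₀ c) hρ m x
  have hB : 0 ≤ B1 / ρ := (abs_nonneg _).trans h2
  rw [pd_cz m hρ]
  refine (abs_add_le _ _).trans ?_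
  rw [abs_mul, abs_mul, abs_of_nonneg (hc_nonneg x), abs_of_nonneg (ct_nonneg x)]
  calc hc a b x₀ ρ x * |H459R3.NS.pd m (ct c (x₀ c) ρ) x|
        + |H459R3.NS.pd m (hc a b x₀ ρ) x| * ct c (x₀ c) ρ x
      ≤ 1 * (B1 / ρ) + B1 / ρ * 1 :=
        add_le_add (mul_le_mul (hc_le x) h2 (abs_nonneg _) zero_le_one)
          (mul_le_mul h1 (ct_le x) (ct_nonneg x) hB)
    _ = _ := by ring

lemma lp_cz (hT : Tri c a b) (hρ : 0 < ρ) (x : V) : lp (cz c a b x₀ ρ) x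
    = hc a b x₀ ρ x * lp (ct c (x₀ c) ρ) x + lp (hc a b x₀ ρ) x * ct c (x₀ c) ρ x := by
  have hG : ContDiff ℝ ∞ (ct c (x₀ c) ρ) := (ct_BF hρ).sm
  have hζ : ContDiff ℝ ∞ (hc a b x₀ ρ) := (hc_BF hρ).sm
  have h0 : ∀ k, k ≠ c → ∀ x, H459R3.NS.pd k (ct c (x₀ c) ρ) x = 0 := by
    intro k hk x
    rw [pd_ct, if_neg hk]
  have h1 : ∀ k, H459R3.NS.pd k (H459R3.NS.pd k (cz c a b x₀ ρ)) x
      = hc a b x₀ ρ x * H459R3.NS.pd k (H459R3.NS.pd k (ct c (x₀ c) ρ)) x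
        + H459R3.NS.pd k (H459R3.NS.pd k (hc a b x₀ ρ)) x * ct c (x₀ c) ρ x := by
    intro k
    have e : H459R3.NS.pd k (cz c a b x₀ ρ) = fun x => hc a b x₀ ρ x * H459R3.NS.pd k (ct c (x₀ c) ρ) x
      + H459R3.NS.pd k (hc a b x₀ ρ) x * ct c (x₀ c) ρ x := funext fun x => pd_cz k hρ x
    have e' : H459R3.NS.pd k (fun x => hc a b x₀ ρ x * H459R3.NS.pd k (ct c (x₀ c) ρ) x
      + H459R3.NS.pd k (hc a b x₀ ρ) x * ct c (x₀ c) ρ x) x
      = H459R3.NS.pd k (fun x => hc a b x₀ ρ x * H459R3.NS.pd k (ct c (x₀ c) ρ) x) x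
      + H459R3.NS.pd k (fun x => H459R3.NS.pd k (hc a b x₀ ρ) x * ct c (x₀ c) ρ x) x :=
      pd_add2 ((hζ.mul (sm_pd hG k)).of_le (by norm_cast)) (((sm_pd hζ k).mul hG).of_le
        (by norm_cast)) k x
    rw [e, e', pd_mul' hζ (sm_pd hG k), pd_mul' (sm_pd hζ k) hG]
    by_cases hk : k = c
    · subst hk
      rw [pd_hc_c hT x]
      ring
    · rw [h0 k hk]
      ring
  unfold OS.lp
  simp only [h1]
  rw [Finset.sum_add_distrib, ← Finset.mul_sum, ← Finset.sum_mul]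

lemma lp_cz_le (hT : Tri c a b) (hρ : 0 < ρ) (x : V) : |lp (cz c a b x₀ ρ) x| ≤ 3 * B2c / ρ ^ 2 := by
  have h1 := lp_hc_le (x₀ := x₀) hT hρ x
  have h2 : |lp (ct c (x₀ c) ρ) x| ≤ B2c / ρ ^ 2 := by
    have e : lp (ct c (x₀ c) ρ) x = H459R3.NS.pd c (H459R3.NS.pd c (ct c (x₀ c) ρ)) x := by
      unfold OS.lp
      refine Finset.sum_eq_single c (fun k _ hk => ?_) (fun h => absurd (Finset.mem_univ c) h)
      rw [pd2_ct, if_neg hk]
    rw [e]
    exact pd2_ct_le hρ c x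
  have hB : 0 ≤ 2 * B2c / ρ ^ 2 := (abs_nonneg _).trans h1
  rw [lp_cz hT hρ]
  refine (abs_add_le _ _).trans ?_
  rw [abs_mul, abs_mul, abs_of_nonneg (hc_nonneg x), abs_of_nonneg (ct_nonneg x)]
  calc hc a b x₀ ρ x * |lp (ct c (x₀ c) ρ) x| + |lp (hc a b x₀ ρ) x| * ct c (x₀ c) ρ x
      ≤ 1 * (B2c / ρ ^ 2) + 2 * B2c / ρ ^ 2 * 1 :=
        add_le_add (mul_le_mul (hc_le x) h2 (abs_nonneg _) zero_le_one)
          (mul_le_mul h1 (ct_le x) (ct_nonneg x) hB)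
    _ = _ := by ring

lemma lp_cz_out (hT : Tri c a b) (hρ : 0 < ρ) (hx : x ∉ ball x₀ (3 * ρ)) :
    lp (cz c a b x₀ ρ) x = 0 := by
  unfold OS.lp
  refine Finset.sum_eq_zero fun k _ => ?_
  have hxo : x ∈ {x : V | 2 * ρ < dist x x₀} := by
    rw [mem_ball, not_lt] at hx
    show 2 * ρ < dist x x₀
    linarith
  rw [pd_loc (g := fun _ => 0) (out_open x₀ (2 * ρ)) (fun y hy => ?_) k hxo]
  · unfold H459R3.NS.pd
    simp
  · rw [pd_loc (g := fun _ => 0) (out_open x₀ (2 * ρ)) (fun z hz => ?_) k hy]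
    · unfold H459R3.NS.pd
      simp
    · apply cz_out hT hρ
      rw [mem_ball, not_lt]
      exact le_of_lt hz

end

section
variable {ν T s t₁ : ℝ} {u : ℝ → V → V} {p : ℝ → V → ℝ} {ζ : V → ℝ}

/-- The energy inequality with a fixed weight. -/
lemma lin (h : HS ν T u p) (ht₁ : 0 < t₁) (hts : t₁ ≤ s) (hs : s < T) (hζ : BF ζ)
    (hζ0 : ∀ x, 0 ≤ ζ x) :
    ENNReal.ofReal (enW (cw u s) ζ) + ∫⁻ τ in Ioc t₁ s, ENNReal.ofReal (ν * dsW (cw u τ) ζ)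
      ≤ ENNReal.ofReal (enW (cw u t₁) ζ)
      + ∫⁻ τ in Ioc t₁ s, ENNReal.ofReal |flW (cw u τ) (p τ) ζ + ν * enW (cw u τ) (lp ζ)| := by
  have hΨ : UB (Icc t₁ s) (fun _ => ζ) := hζ.mono (subset_univ _)
  have jΨ : J T (fun _ : ℝ => ζ) := (hζ.sm.comp contDiff_snd).contDiffOn
  have hd0 : ∀ (x : V) (τ : ℝ), deriv (fun _ : ℝ => ζ x) τ = 0 := fun x τ => deriv_const _ _
  have hΨ' : UB (Icc t₁ s) (fun τ x => deriv (fun _ : ℝ => ζ x) τ) := by
    simp only [hd0]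
    exact UB.zero
  have key := wid h ht₁ hts hs jΨ hΨ hΨ'
  have e0 : ∀ τ, enW (cw u τ) (fun x => deriv (fun _ : ℝ => ζ x) τ) = 0 := by
    intro τ
    simp only [hd0]
    unfold enW
    simp
  simp only [e0, add_zero] at key
  have i2 : IntegrableOn (fun τ => ν * dsW (cw u τ) ζ) (Ioc t₁ s) := by
    have e3 : ∀ τ ∈ Ioc t₁ s, ∑ i, ∑ k, ip (H459R3.NS.pd k (cw u τ i))
        (fun x => H459R3.NS.pd k (cw u τ i) x * ζ x) = dsW (cw u τ) ζ := by
      intro τ hτ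
      have hw : ∀ i, HF (cw u τ i) := fun i =>
        h.cw_HF ⟨ht₁.trans hτ.1, hτ.2.trans_lt hs⟩ i
      have i4 : ∀ i k, Integrable fun x => H459R3.NS.pd k (cw u τ i) x ^ 2 * ζ x :=
        fun i k => sqB_int ((hw i).pd k) hζ
      have e4 : ∀ i k, ip (H459R3.NS.pd k (cw u τ i))
          (fun x => H459R3.NS.pd k (cw u τ i) x * ζ x)
          = ∫ x, H459R3.NS.pd k (cw u τ i) x ^ 2 * ζ x := by
        intro i k
        unfold ip
        congr 1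
        funext x
        ring
      unfold dsW
      simp only [e4]
      have : ∀ i, ∑ k, ∫ x, H459R3.NS.pd k (cw u τ i) x ^ 2 * ζ x
          = ∫ x, ∑ k, H459R3.NS.pd k (cw u τ i) x ^ 2 * ζ x :=
        fun i => (sum_int3 fun k => i4 i k).symm
      simp only [this]
      rw [← sum_int3 fun i => integrable_finsetSum _ fun k _ => i4 i k]
      congr 1
      funext x
      simp only [Finset.sum_mul]
    have i5 : IntegrableOn (fun τ => ∑ i, ∑ k, ip (H459R3.NS.pd k (cw u τ i))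
        (fun x => H459R3.NS.pd k (cw u τ i) x * ζ x)) (Ioc t₁ s) := by
      apply integrable_finsetSum
      intro i _
      apply integrable_finsetSum
      intro k _
      have hu : UF (Icc t₁ s) (fun τ => H459R3.NS.pd k (cw u τ i)) := (h.uu t₁ s ht₁ hs i).pd k
      have ju : J T (fun τ => H459R3.NS.pd k (cw u τ i)) := (h.ju i).pd k
      exact ip_intOn ht₁ hs ju (ju.mul jΨ) hu (UF.mulB hu hΨ)
    exact (i5.congr_fun e3 measurableSet_Ioc).const_mul ν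
  have i3 : IntegrableOn (fun τ => flW (cw u τ) (p τ) ζ + ν * enW (cw u τ) (lp ζ)) (Ioc t₁ s) := by
    refine (key.1.add (i2.const_mul 2)).congr_fun (fun τ _ => ?_) measurableSet_Ioc
    simp only [Pi.add_apply]
    ring
  have e1 : enW (cw u s) ζ = enW (cw u t₁) ζ + ∫ τ in Ioc t₁ s,
      ((flW (cw u τ) (p τ) ζ + ν * enW (cw u τ) (lp ζ)) - 2 * (ν * dsW (cw u τ) ζ)) := by
    rw [key.2]
    congr 1
    refine setIntegral_congr_fun measurableSet_Ioc fun τ _ => ?_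
    ring
  exact cmp i2 (fun τ _ => mul_nonneg h.hν.le (dsW_nonneg hζ0)) i3 (enW_nonneg hζ0) e1
    (fun τ _ => le_add_self)

end

end Pool.Agent.H305.PL
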