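import Pool.Agent.H305.PL.PY

/-!
The local flux at one time.
-/

set_option autoImplicit false

open MeasureTheory Set Metric Filter Topology
open scoped ContDiff ENNReal

namespace Pool.Agent.H305.PL

open H459R3.NS W221.NS Pool.Agent.V1183.PM Pool.Agent.H305.OS Pool.Agent.H305.SL

section
variable {c : Fin 3} {y ρ ρ' R : ℝ} {v : Fin 3 → V → ℝ} {w : V → ℝ} {x₀ : V}

/-- The energy in a ball. -/
noncomputable def eB (v : Fin 3 → V → ℝ) (x₀ : V) (ρ : ℝ) : ℝ≥0∞ :=
  ∫⁻ x in ball x₀ ρ, ENNReal.ofReal (nw v x)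

lemma ball_sub (hx : x₀ c = y) : ball x₀ ρ ⊆ slb c y ρ := by
  rw [← hx]
  exact ball_slb c

lemma eB_le (hx : x₀ c = y) (hρ : 0 < ρ) : eB v x₀ ρ ≤ sE v c y (4 * ρ) :=
  lintegral_mono_set ((ball_sub hx).trans (slb_mono (by linarith)))

/-- Changing the order of integration. -/
lemma swapS {S : Set V} (hSs : S ⊆ slb c y ρ) {G : V → ℝ≥0∞}
    (hw : Continuous w) (hG : Measurable G) (hR : 0 < R) (hρ' : ρ + R ≤ ρ') {K : ℝ≥0∞}
    (hK : ∀ z, ∫⁻ x in S ∩ closedBall z R, ENNReal.ofReal |w x| ≤ K) :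
    ∫⁻ x in S, ENNReal.ofReal |w x| * ∫⁻ y' in closedBall (0 : V) 1, G (x + R • y')
      ≤ ENNReal.ofReal ((R ^ 3)⁻¹) * (K * ∫⁻ z in slb c y ρ', G z) := by
  have e1 : ∀ x, ∫⁻ y' in closedBall (0 : V) 1, G (x + R • y')
      = ENNReal.ofReal ((R ^ 3)⁻¹) * ∫⁻ z in closedBall x R, G z := fun x => ball_av hR hG x
  have mw : Measurable fun x => ENNReal.ofReal |w x| :=
    (ENNReal.continuous_ofReal.comp hw.abs).measurable
  have e2 : ∫⁻ x in S, ENNReal.ofReal |w x| * ∫⁻ y' in closedBall (0 : V) 1, G (x + R • y')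
      = ENNReal.ofReal ((R ^ 3)⁻¹) * ∫⁻ x in S, ∫⁻ z in closedBall x R,
        ENNReal.ofReal |w x| * G z := by
    rw [← lintegral_const_mul' _ _ ENNReal.ofReal_ne_top]
    apply lintegral_congr
    intro x
    rw [e1 x, lintegral_const_mul' _ _ ENNReal.ofReal_ne_top]
    ring
  rw [e2]
  refine mul_le_mul_right ?_ _
  have e3 : ∫⁻ x in S, ∫⁻ z in closedBall x R, ENNReal.ofReal |w x| * G z
      = ∫⁻ z, ∫⁻ x in S, (if dist z x ≤ R then ENNReal.ofReal |w x| * G z else 0) := by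
    rw [lintegral_lintegral_swap]
    · apply lintegral_congr
      intro x
      rw [← lintegral_indicator measurableSet_closedBall]
      rfl
    · apply Measurable.aemeasurable
      apply Measurable.ite
      · exact measurableSet_le (by fun_prop) measurable_const
      · exact (mw.comp measurable_snd).mul (hG.comp measurable_fst)
      · exact measurable_const
  rw [e3]
  have e4 : ∀ z, ∫⁻ x in S, (if dist z x ≤ R then ENNReal.ofReal |w x| * G z else 0)
      = (∫⁻ x in S ∩ closedBall z R, ENNReal.ofReal |w x|) * G z := by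
    intro z
    rw [← lintegral_mul_const _ mw, inter_comm,
      ← Measure.restrict_restrict measurableSet_closedBall, ← lintegral_indicator
      measurableSet_closedBall]
    apply lintegral_congr
    intro x
    simp only [indicator, mem_closedBall]
    rw [dist_comm z x]
  simp only [e4]
  have e5 : ∀ z, (∫⁻ x in S ∩ closedBall z R, ENNReal.ofReal |w x|) * G z
      ≤ (slb c y ρ').indicator (fun z => K * G z) z := by
    intro z
    by_cases hz : z ∈ slb c y ρ'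
    · rw [indicator_of_mem hz]
      exact mul_le_mul_left (hK z) _
    · have : S ∩ closedBall z R = ∅ := by
        rw [eq_empty_iff_forall_notMem]
        rintro x ⟨hx0, hx2⟩
        apply hz
        have hx1 := hSs hx0
        rw [mem_closedBall, dist_eq_norm, pi_norm_le_iff_of_nonneg hR.le] at hx2
        have a1 : |x c - z c| ≤ R := hx2 c
        have a2 : |x c - y| < ρ := hx1
        show |z c - y| < ρ'
        have a4 : z c - y = -(x c - z c) + (x c - y) := by ring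
        rw [a4]
        refine (abs_add_le _ _).trans_lt ?_
        rw [abs_neg]
        linarith
      rw [this]
      simp
  refine (lintegral_mono e5).trans ?_
  rw [lintegral_indicator slb_meas, lintegral_const_mul _ hG]

/-- The square of a component. -/
lemma sq_eB (i : Fin 3) (x₀ : V) (ρ : ℝ) :
    ∫⁻ x in ball x₀ ρ, ENNReal.ofReal |v i x| ^ 2 ≤ eB v x₀ ρ := by
  apply lintegral_mono
  intro x
  simp only
  rw [← ENNReal.ofReal_pow (abs_nonneg _), sq_abs]
  apply ENNReal.ofReal_le_ofReal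
  exact Finset.single_le_sum (f := fun i => v i x ^ 2) (fun i _ => sq_nonneg _) (Finset.mem_univ i)

/-- The cubic term. -/
lemma cubB (hv : ∀ i, HF (v i)) (hρ : 0 < ρ) (hx : x₀ c = y) (i : Fin 3) :
    ∫⁻ x in ball x₀ ρ, ENNReal.ofReal (|v i x| * nw v x) ≤
      3888 * (eB v x₀ ρ ^ (1 / 2 : ℝ) * (sE v c y (4 * ρ) ^ (1 / 4 : ℝ)
        * Dt v c y ρ ^ (3 / 4 : ℝ))) := by
  have cn := nw_cont hv
  have mv : ∀ i, Measurable (v i) := fun i => (hv i).sm.continuous.measurable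
  have h1 : ∫⁻ x in ball x₀ ρ, ENNReal.ofReal (|v i x| * nw v x)
      ≤ (∫⁻ x in ball x₀ ρ, ENNReal.ofReal |v i x| ^ 2) ^ (1 / 2 : ℝ)
        * (∫⁻ x in ball x₀ ρ, ENNReal.ofReal (nw v x) ^ 2) ^ (1 / 2 : ℝ) := by
    have m1 : Measurable fun x => ENNReal.ofReal |v i x| := (mv i).norm.ennreal_ofReal
    have m2 : Measurable fun x => ENNReal.ofReal (nw v x) := cn.measurable.ennreal_ofReal
    refine le_trans (le_of_eq ?_) (csE m1.aemeasurable m2.aemeasurable)
    apply lintegral_congr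
    intro x
    exact ENNReal.ofReal_mul (abs_nonneg _)
  have h3 : ∫⁻ x in ball x₀ ρ, ENNReal.ofReal (nw v x) ^ 2
      ≤ 3888 * (sE v c y (4 * ρ) ^ (1 / 2 : ℝ) * Dt v c y ρ ^ (3 / 2 : ℝ)) := by
    refine (lintegral_mono_set (ball_sub hx)).trans ?_
    calc ∫⁻ x in slb c y ρ, ENNReal.ofReal (nw v x) ^ 2
        ≤ ∫⁻ x in slb c y ρ, 3 * ∑ k, ENNReal.ofReal (v k x ^ 4) := by
          apply lintegral_mono
          intro x
          simp only
          rw [← ENNReal.ofReal_pow (nw_nonneg v x), ← ENNReal.ofReal_sum_of_nonneg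
            (fun k _ => by positivity), show (3 : ℝ≥0∞) = ENNReal.ofReal 3 by norm_num,
            ← ENNReal.ofReal_mul (by norm_num)]
          apply ENNReal.ofReal_le_ofReal
          unfold nw
          simp only [Fin.sum_univ_three]
          nlinarith [sq_nonneg (v 0 x ^ 2 - v 1 x ^ 2), sq_nonneg (v 1 x ^ 2 - v 2 x ^ 2),
            sq_nonneg (v 0 x ^ 2 - v 2 x ^ 2)]
      _ = 3 * ∑ k, ∫⁻ x in slb c y ρ, ENNReal.ofReal (v k x ^ 4) := by
          rw [lintegral_const_mul _ (Finset.measurable_sum _ fun k _ =>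
            ((mv k).pow_const 4).ennreal_ofReal), lintegral_finsetSum _ fun k _ =>
            ((mv k).pow_const 4).ennreal_ofReal]
      _ ≤ 3 * ∑ _k : Fin 3, 432 * (sE v c y (4 * ρ) ^ (1 / 2 : ℝ) * Dt v c y ρ ^ (3 / 2 : ℝ)) := by
          gcongr with k _
          exact L4s hv hρ k
      _ = _ := by
          rw [Finset.sum_const, Finset.card_univ, Fintype.card_fin, nsmul_eq_mul]
          push_cast
          ring
  calc ∫⁻ x in ball x₀ ρ, ENNReal.ofReal (|v i x| * nw v x)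
      ≤ eB v x₀ ρ ^ (1 / 2 : ℝ)
        * (3888 * (sE v c y (4 * ρ) ^ (1 / 2 : ℝ) * Dt v c y ρ ^ (3 / 2 : ℝ))) ^ (1 / 2 : ℝ) := by
        refine h1.trans (mul_le_mul' ?_ ?_)
        · exact ENNReal.rpow_le_rpow (sq_eB i x₀ ρ) (by norm_num)
        · exact ENNReal.rpow_le_rpow h3 (by norm_num)
    _ = (3888 : ℝ≥0∞) ^ (1 / 2 : ℝ) * (eB v x₀ ρ ^ (1 / 2 : ℝ)
        * (sE v c y (4 * ρ) ^ (1 / 4 : ℝ) * Dt v c y ρ ^ (3 / 4 : ℝ))) := by
        rw [ENNReal.mul_rpow_of_nonneg _ _ (by norm_num), ENNReal.mul_rpow_of_nonneg _ _ (by norm_num),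
          ← ENNReal.rpow_mul, ← ENNReal.rpow_mul, show (1 / 2 : ℝ) * (1 / 2) = 1 / 4 by norm_num,
          show (3 / 2 : ℝ) * (1 / 2) = 3 / 4 by norm_num]
        ring
    _ ≤ _ := by
        refine mul_le_mul_left ?_ _
        calc (3888 : ℝ≥0∞) ^ (1 / 2 : ℝ) ≤ (3888 : ℝ≥0∞) ^ (1 : ℝ) :=
              ENNReal.rpow_le_rpow_of_exponent_le (by norm_num) (by norm_num)
          _ = _ := ENNReal.rpow_one _

/-- The volume of a ball. -/
lemma vol_cb (hR : 0 < R) (z : V) (S : Set V) :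
    ∫⁻ _x in S ∩ closedBall z R, (1 : ℝ≥0∞) ≤ 8 * ENNReal.ofReal R ^ 3 := by
  refine (lintegral_mono_set inter_subset_right).trans ?_
  rw [setLIntegral_one]
  have hb := Real.volume_pi_closedBall z hR.le
  rw [hb, Fintype.card_fin, ENNReal.ofReal_pow (by positivity), ENNReal.ofReal_mul (by norm_num),
    mul_pow]
  gcongr
  norm_num

/-- Integrals over small balls. -/
lemma ballI (hv : ∀ i, HF (v i)) (hρ : 0 < ρ) (hR : 0 < R) (hx : x₀ c = y) (i : Fin 3) (z : V) :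
    ∫⁻ x in ball x₀ ρ ∩ closedBall z R, ENNReal.ofReal |v i x| ≤
      3456 * (ENNReal.ofReal R ^ (17 / 8 : ℝ) * (eB v x₀ ρ ^ (1 / 12 : ℝ)
        * (sE v c y (4 * ρ) ^ (5 / 48 : ℝ) * Dt v c y ρ ^ (5 / 16 : ℝ)))) := by
  have mv : Measurable (v i) := (hv i).sm.continuous.measurable
  have m1 : Measurable fun x => ENNReal.ofReal |v i x| := mv.norm.ennreal_ofReal
  have m4 : Measurable fun x => ENNReal.ofReal (v i x ^ 4) := (mv.pow_const 4).ennreal_ofReal
  have h := hol3 (μ := volume.restrict (ball x₀ ρ ∩ closedBall z R))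
    (f := fun x => ENNReal.ofReal |v i x| ^ 2) (g := fun x => ENNReal.ofReal (v i x ^ 4))
    (h := fun _ => 1) (m1.pow_const 2).aemeasurable m4.aemeasurable aemeasurable_const
    (p := 1 / 12) (q := 5 / 24) (r := 17 / 24)
    (by norm_num) (by norm_num) (by norm_num) (by norm_num)
  simp only [ENNReal.one_rpow, mul_one] at h
  have e : ∀ x, (ENNReal.ofReal |v i x| ^ 2) ^ (1 / 12 : ℝ)
      * ENNReal.ofReal (v i x ^ 4) ^ (5 / 24 : ℝ) = ENNReal.ofReal |v i x| := by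
    intro x
    rw [show v i x ^ 4 = |v i x| ^ 4 by rw [show 4 = 2 * 2 by norm_num, pow_mul, pow_mul, sq_abs],
      ENNReal.ofReal_pow (abs_nonneg _), ← ENNReal.rpow_natCast, ← ENNReal.rpow_natCast,
      ← ENNReal.rpow_mul, ← ENNReal.rpow_mul,
      ← ENNReal.rpow_add_of_nonneg _ _ (by norm_num) (by norm_num)]
    norm_num
  simp only [e] at h
  refine h.trans ?_
  have h1 : ∫⁻ x in ball x₀ ρ ∩ closedBall z R, ENNReal.ofReal (v i x ^ 4)
      ≤ 432 * (sE v c y (4 * ρ) ^ (1 / 2 : ℝ) * Dt v c y ρ ^ (3 / 2 : ℝ)) :=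
    (lintegral_mono_set (inter_subset_left.trans (ball_sub hx))).trans (L4s hv hρ i)
  have h0 : ∫⁻ x in ball x₀ ρ ∩ closedBall z R, ENNReal.ofReal |v i x| ^ 2 ≤ eB v x₀ ρ :=
    (lintegral_mono_set inter_subset_left).trans (sq_eB i x₀ ρ)
  have h2 := vol_cb hR z (ball x₀ ρ)
  calc _ ≤ eB v x₀ ρ ^ (1 / 12 : ℝ)
        * (432 * (sE v c y (4 * ρ) ^ (1 / 2 : ℝ) * Dt v c y ρ ^ (3 / 2 : ℝ))) ^ (5 / 24 : ℝ)
        * (8 * ENNReal.ofReal R ^ 3) ^ (17 / 24 : ℝ) := by
        refine mul_le_mul' (mul_le_mul' ?_ ?_) ?_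
        · exact ENNReal.rpow_le_rpow h0 (by norm_num)
        · exact ENNReal.rpow_le_rpow h1 (by norm_num)
        · exact ENNReal.rpow_le_rpow h2 (by norm_num)
    _ = ((432 : ℝ≥0∞) ^ (5 / 24 : ℝ) * (8 : ℝ≥0∞) ^ (17 / 24 : ℝ)) * (ENNReal.ofReal R ^ (17 / 8 : ℝ)
        * (eB v x₀ ρ ^ (1 / 12 : ℝ)
          * (sE v c y (4 * ρ) ^ (5 / 48 : ℝ) * Dt v c y ρ ^ (5 / 16 : ℝ)))) := by
        rw [ENNReal.mul_rpow_of_nonneg _ _ (by norm_num), ENNReal.mul_rpow_of_nonneg _ _ (by norm_num),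
          ENNReal.mul_rpow_of_nonneg _ _ (by norm_num),
          ← ENNReal.rpow_mul, ← ENNReal.rpow_mul, show (1 / 2 : ℝ) * (5 / 24) = 5 / 48 by norm_num,
          show (3 / 2 : ℝ) * (5 / 24) = 5 / 16 by norm_num, ← ENNReal.rpow_natCast,
          ← ENNReal.rpow_mul, show ((3 : ℕ) : ℝ) * (17 / 24) = 17 / 8 by norm_num]
        ring
    _ ≤ _ := by
        refine mul_le_mul_left ?_ _
        calc ((432 : ℝ≥0∞) ^ (5 / 24 : ℝ) * (8 : ℝ≥0∞) ^ (17 / 24 : ℝ))
            ≤ ((432 : ℝ≥0∞) ^ (1 : ℝ) * (8 : ℝ≥0∞) ^ (1 : ℝ)) :=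
              mul_le_mul' (ENNReal.rpow_le_rpow_of_exponent_le (by norm_num) (by norm_num))
                (ENNReal.rpow_le_rpow_of_exponent_le (by norm_num) (by norm_num))
          _ = _ := by
              rw [ENNReal.rpow_one, ENNReal.rpow_one]
              norm_num

end

end Pool.Agent.H305.PL
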