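import Pool.Agent.H305.PL.Lfl

/-!
The local flux at one time: the pressure.
-/

set_option autoImplicit false

open MeasureTheory Set Metric Filter Topology
open scoped ContDiff ENNReal

namespace Pool.Agent.H305.PL

open H459R3.NS W221.NS Pool.Agent.V1183.PM Pool.Agent.H305.OS Pool.Agent.H305.SL

section
variable {c : Fin 3} {y ρ ρ' R : ℝ} {v : Fin 3 → V → ℝ} {w : V → ℝ} {x₀ : V}

/-- The near part of the pressure. -/
lemma nearB (hv : ∀ i, HF (v i)) (hρ : 0 < ρ) (hx : x₀ c = y) (i : Fin 3) :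
    ∫⁻ x in ball x₀ ρ, ENNReal.ofReal |v i x| * nearP v ρ x ≤
      27648 * (ENNReal.ofReal ρ ^ (1 / 8 : ℝ) * (eB v x₀ ρ ^ (1 / 12 : ℝ)
        * (sE v c y (4 * ρ) ^ (29 / 48 : ℝ) * Dt v c y ρ ^ (13 / 16 : ℝ)))) := by
  have cn := nw_cont hv
  have cg := gw_cont hv
  have hw : Continuous (v i) := (hv i).sm.continuous
  obtain ⟨G, hG⟩ : ∃ G : V → ℝ, G = fun x => √(nw v x) * √(gw v x) := ⟨_, rfl⟩
  have cG : Continuous G := by
    rw [hG]
    exact cn.sqrt.mul cg.sqrt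
  have mG : Measurable fun x => ENNReal.ofReal (G x) := cG.measurable.ennreal_ofReal
  have m1 : Measurable fun x => ENNReal.ofReal |v i x| := hw.measurable.norm.ennreal_ofReal
  have e0 : ∫⁻ x in ball x₀ ρ, ENNReal.ofReal |v i x| * nearP v ρ x
      = ∫⁻ R in Ioc 0 ρ, ∫⁻ x in ball x₀ ρ, ENNReal.ofReal |v i x|
        * ∫⁻ y' in closedBall (0 : V) 1, ENNReal.ofReal (G (x + R • y')) := by
    unfold nearP
    have m2 : Measurable fun z : V × ℝ => ∫⁻ y' in closedBall (0 : V) 1,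
        ENNReal.ofReal (G (z.1 + z.2 • y')) := by
      have : Measurable fun q : (V × ℝ) × V => ENNReal.ofReal (G (q.1.1 + q.1.2 • q.2)) := by
        have : Continuous fun q : (V × ℝ) × V => G (q.1.1 + q.1.2 • q.2) := by fun_prop
        exact (ENNReal.continuous_ofReal.comp this).measurable
      exact this.lintegral_prod_right'
    have e6 : ∀ x, ENNReal.ofReal |v i x| * ∫⁻ R in Ioc 0 ρ,
        ∫⁻ y' in closedBall (0 : V) 1,
          ENNReal.ofReal (√(nw v (x + R • y')) * √(gw v (x + R • y')))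
        = ∫⁻ R in Ioc 0 ρ, ENNReal.ofReal |v i x| *
        ∫⁻ y' in closedBall (0 : V) 1, ENNReal.ofReal (G (x + R • y')) := by
      intro x
      rw [hG, ← lintegral_const_mul' _ _ ENNReal.ofReal_ne_top]
    simp only [e6]
    rw [lintegral_lintegral_swap]
    apply Measurable.aemeasurable
    exact (m1.comp measurable_fst).mul m2
  rw [e0]
  obtain ⟨X, hX⟩ : ∃ X : ℝ≥0∞, X = eB v x₀ ρ ^ (1 / 12 : ℝ)
        * (sE v c y (4 * ρ) ^ (5 / 48 : ℝ) * Dt v c y ρ ^ (5 / 16 : ℝ)) :=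
    ⟨_, rfl⟩
  have hGi : ∫⁻ z in slb c y (2 * ρ), ENNReal.ofReal (G z)
      ≤ sE v c y (4 * ρ) ^ (1 / 2 : ℝ) * Dt v c y ρ ^ (1 / 2 : ℝ) := by
    have h := csE (μ := volume.restrict (slb c y (2 * ρ))) (f := fun x => ENNReal.ofReal √(nw v x))
      (g := fun x => ENNReal.ofReal √(gw v x)) cn.sqrt.measurable.ennreal_ofReal.aemeasurable
      cg.sqrt.measurable.ennreal_ofReal.aemeasurable
    have e1 : ∫⁻ z in slb c y (2 * ρ), ENNReal.ofReal (G z)
        = ∫⁻ x in slb c y (2 * ρ), ENNReal.ofReal √(nw v x) * ENNReal.ofReal √(gw v x) := by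
      rw [hG]
      apply lintegral_congr
      intro x
      exact ENNReal.ofReal_mul (Real.sqrt_nonneg _)
    rw [e1]
    refine h.trans ?_
    have e2 : ∫⁻ x in slb c y (2 * ρ), ENNReal.ofReal √(nw v x) ^ 2 ≤ sE v c y (4 * ρ) := by
      refine le_trans ?_ (lintegral_mono_set (slb_mono (by linarith : 2 * ρ ≤ 4 * ρ)))
      apply lintegral_mono
      intro x
      simp only
      rw [← ENNReal.ofReal_pow (Real.sqrt_nonneg _), Real.sq_sqrt (nw_nonneg v x)]
    have e3 : ∫⁻ x in slb c y (2 * ρ), ENNReal.ofReal √(gw v x) ^ 2 ≤ Dt v c y ρ := by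
      refine le_trans (le_trans ?_ (lintegral_mono_set (slb_mono (by linarith : 2 * ρ ≤ 4 * ρ))))
        (le_self_add : sG v c y (4 * ρ) ≤ Dt v c y ρ)
      apply lintegral_mono
      intro x
      simp only
      rw [← ENNReal.ofReal_pow (Real.sqrt_nonneg _), Real.sq_sqrt (gw_nonneg v x)]
    gcongr
  calc ∫⁻ R in Ioc 0 ρ, ∫⁻ x in ball x₀ ρ, ENNReal.ofReal |v i x|
        * ∫⁻ y' in closedBall (0 : V) 1, ENNReal.ofReal (G (x + R • y'))
      ≤ ∫⁻ R in Ioc 0 ρ, (3456 * X * (sE v c y (4 * ρ) ^ (1 / 2 : ℝ) * Dt v c y ρ ^ (1 / 2 : ℝ)))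
        * ENNReal.ofReal (R ^ (-(7 / 8) : ℝ)) := by
        apply setLIntegral_mono' measurableSet_Ioc
        intro R hR
        have hR0 : 0 < R := hR.1
        refine (swapS (c := c) (y := y) (ρ := ρ) (ρ' := 2 * ρ) (ball_sub hx) hw mG hR0
          (by linarith [hR.2]) (fun z => ballI hv hρ hR0 hx i z)).trans ?_
        rw [← hX]
        have e1 : ENNReal.ofReal ((R ^ 3)⁻¹) * ENNReal.ofReal R ^ (17 / 8 : ℝ)
            = ENNReal.ofReal (R ^ (-(7 / 8) : ℝ)) := by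
          rw [ENNReal.ofReal_rpow_of_pos hR0, ← ENNReal.ofReal_mul (by positivity)]
          congr 1
          rw [← Real.rpow_natCast, ← Real.rpow_neg hR0.le, ← Real.rpow_add hR0]
          norm_num
        calc ENNReal.ofReal ((R ^ 3)⁻¹) * (3456 * (ENNReal.ofReal R ^ (17 / 8 : ℝ) * X)
              * ∫⁻ z in slb c y (2 * ρ), ENNReal.ofReal (G z))
            = 3456 * X * (∫⁻ z in slb c y (2 * ρ), ENNReal.ofReal (G z))
              * (ENNReal.ofReal ((R ^ 3)⁻¹) * ENNReal.ofReal R ^ (17 / 8 : ℝ)) := by ring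
          _ ≤ _ := by
              rw [e1]
              gcongr
    _ = (3456 * X * (sE v c y (4 * ρ) ^ (1 / 2 : ℝ) * Dt v c y ρ ^ (1 / 2 : ℝ)))
        * ∫⁻ R in Ioc 0 ρ, ENNReal.ofReal (R ^ (-(7 / 8) : ℝ)) := by
        rw [lintegral_const_mul]
        apply Measurable.ennreal_ofReal
        fun_prop
    _ = (3456 * X * (sE v c y (4 * ρ) ^ (1 / 2 : ℝ) * Dt v c y ρ ^ (1 / 2 : ℝ)))
        * (8 * ENNReal.ofReal ρ ^ (1 / 8 : ℝ)) := by
        congr 1
        have i1 : IntervalIntegrable (fun R : ℝ => R ^ (-(7 / 8) : ℝ)) volume 0 ρ :=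
          intervalIntegral.intervalIntegrable_rpow' (by norm_num)
        rw [intervalIntegrable_iff_integrableOn_Ioc_of_le hρ.le] at i1
        rw [← ofReal_integral_eq_lintegral_ofReal i1]
        · rw [← intervalIntegral.integral_of_le hρ.le, integral_rpow (Or.inl (by norm_num)),
            ENNReal.ofReal_rpow_of_pos hρ, show (8 : ℝ≥0∞) = ENNReal.ofReal 8 by norm_num,
            ← ENNReal.ofReal_mul (by norm_num)]
          congr 1
          rw [Real.zero_rpow (by norm_num)]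
          norm_num
          ring
        · rw [EventuallyLE, ae_restrict_iff' measurableSet_Ioc]
          exact Eventually.of_forall fun R hR => Real.rpow_nonneg hR.1.le _
    _ = 27648 * (ENNReal.ofReal ρ ^ (1 / 8 : ℝ)
        * (eB v x₀ ρ ^ (1 / 12 : ℝ) * ((sE v c y (4 * ρ) ^ (5 / 48 : ℝ) * sE v c y (4 * ρ) ^ (1 / 2 : ℝ))
          * (Dt v c y ρ ^ (5 / 16 : ℝ) * Dt v c y ρ ^ (1 / 2 : ℝ))))) := by
        rw [hX]
        ring
    _ = _ := by
        rw [← ENNReal.rpow_add_of_nonneg _ _ (by norm_num) (by norm_num),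
          ← ENNReal.rpow_add_of_nonneg _ _ (by norm_num) (by norm_num)]
        norm_num

/-- The far part of the pressure. -/
lemma farB (hv : ∀ i, HF (v i)) (hρ : 0 < ρ) (hx : x₀ c = y) (i : Fin 3) {A : ℝ} (hA : 0 ≤ A)
    (hE : ∀ R, 0 < R → sE v c y R ≤ ENNReal.ofReal (A * R)) :
    ∫⁻ x in ball x₀ ρ, ENNReal.ofReal |v i x| * farP v ρ x
      ≤ 3 * (ENNReal.ofReal A * (ENNReal.ofReal ρ ^ (-(1 / 2) : ℝ) * eB v x₀ ρ ^ (1 / 2 : ℝ))) := by
  have cn := nw_cont hv
  have mn : Measurable fun x => ENNReal.ofReal (nw v x) := cn.measurable.ennreal_ofReal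
  have hw : Continuous (v i) := (hv i).sm.continuous
  have m1 : Measurable fun x => ENNReal.ofReal |v i x| := hw.measurable.norm.ennreal_ofReal
  have e0 : ∫⁻ x in ball x₀ ρ, ENNReal.ofReal |v i x| * farP v ρ x
      = ∫⁻ R in Ioi ρ, ENNReal.ofReal R⁻¹ * ∫⁻ x in ball x₀ ρ, ENNReal.ofReal |v i x|
        * ∫⁻ y' in closedBall (0 : V) 1, ENNReal.ofReal (nw v (x + R • y')) := by
    unfold farP
    have m2 : Measurable fun z : V × ℝ => ∫⁻ y' in closedBall (0 : V) 1,
        ENNReal.ofReal (nw v (z.1 + z.2 • y')) := by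
      have : Measurable fun q : (V × ℝ) × V => ENNReal.ofReal (nw v (q.1.1 + q.1.2 • q.2)) := by
        have : Continuous fun q : (V × ℝ) × V => nw v (q.1.1 + q.1.2 • q.2) := by fun_prop
        exact (ENNReal.continuous_ofReal.comp this).measurable
      exact this.lintegral_prod_right'
    have e6 : ∀ x, ENNReal.ofReal |v i x| * ∫⁻ R in Ioi ρ, ENNReal.ofReal R⁻¹ *
        ∫⁻ y' in closedBall (0 : V) 1, ENNReal.ofReal (nw v (x + R • y'))
        = ∫⁻ R in Ioi ρ, ENNReal.ofReal |v i x| * (ENNReal.ofReal R⁻¹ *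
        ∫⁻ y' in closedBall (0 : V) 1, ENNReal.ofReal (nw v (x + R • y'))) := fun x =>
      (lintegral_const_mul' _ _ ENNReal.ofReal_ne_top).symm
    simp only [e6]
    rw [lintegral_lintegral_swap]
    · apply lintegral_congr
      intro R
      rw [← lintegral_const_mul' _ _ ENNReal.ofReal_ne_top]
      apply lintegral_congr
      intro x
      ring
    · apply Measurable.aemeasurable
      apply (m1.comp measurable_fst).mul
      apply Measurable.mul _ m2
      fun_prop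
  rw [e0]
  obtain ⟨K, hK⟩ : ∃ K : ℝ≥0∞, K = (8 * ENNReal.ofReal ρ ^ 3) ^ (1 / 2 : ℝ)
    * eB v x₀ ρ ^ (1 / 2 : ℝ) := ⟨_, rfl⟩
  have hKb : ∀ R z, ∫⁻ x in ball x₀ ρ ∩ closedBall z R, ENNReal.ofReal |v i x| ≤ K := by
    intro R z
    have h := csE (μ := volume.restrict (ball x₀ ρ))
      (f := fun _ => 1) (g := fun x => ENNReal.ofReal |v i x|) aemeasurable_const m1.aemeasurable
    simp only [one_mul, one_pow] at h
    refine (lintegral_mono_set inter_subset_left).trans (h.trans ?_)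
    rw [hK]
    have h2 : ∫⁻ _x in ball x₀ ρ, (1 : ℝ≥0∞) ≤ 8 * ENNReal.ofReal ρ ^ 3 := by
      have h3 := vol_cb hρ x₀ (ball x₀ ρ)
      rwa [inter_eq_self_of_subset_left ball_subset_closedBall] at h3
    exact mul_le_mul' (ENNReal.rpow_le_rpow h2 (by norm_num))
      (ENNReal.rpow_le_rpow (sq_eB i x₀ ρ) (by norm_num))
  have key : ∀ R ∈ Ioi ρ, ENNReal.ofReal R⁻¹ * ∫⁻ x in ball x₀ ρ, ENNReal.ofReal |v i x|
      * ∫⁻ y' in closedBall (0 : V) 1, ENNReal.ofReal (nw v (x + R • y'))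
      ≤ (K * ENNReal.ofReal (2 * A)) * ENNReal.ofReal (R ^ (-3 : ℝ)) := by
    intro R hR
    have hR0 : 0 < R := hρ.trans hR
    have hR1 : ρ < R := hR
    have h1 := swapS (c := c) (y := y) (ρ := ρ) (ρ' := 2 * R) (ball_sub hx) hw mn hR0
      (by linarith) (fun z => hKb R z)
    have h2 : ∫⁻ z in slb c y (2 * R), ENNReal.ofReal (nw v z) ≤ ENNReal.ofReal (A * (2 * R)) :=
      hE (2 * R) (by linarith)
    calc _ ≤ ENNReal.ofReal R⁻¹ * (ENNReal.ofReal ((R ^ 3)⁻¹) *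
          (K * ENNReal.ofReal (A * (2 * R)))) :=
          mul_le_mul_right (h1.trans (mul_le_mul_right (mul_le_mul_right h2 _) _)) _
      _ = K * (ENNReal.ofReal R⁻¹ * (ENNReal.ofReal ((R ^ 3)⁻¹) * ENNReal.ofReal (A * (2 * R)))) := by
          ring
      _ = _ := by
          rw [mul_assoc K, ← ENNReal.ofReal_mul (by positivity), ← ENNReal.ofReal_mul (by positivity),
            ← ENNReal.ofReal_mul (by positivity)]
          congr 2
          rw [Real.rpow_neg hR0.le, show (3 : ℝ) = ((3 : ℕ) : ℝ) by norm_num, Real.rpow_natCast]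
          field_simp
  refine (setLIntegral_mono' measurableSet_Ioi key).trans ?_
  rw [lintegral_const_mul _ (by fun_prop),
    ← ofReal_integral_eq_lintegral_ofReal (integrableOn_Ioi_rpow_of_lt (by norm_num) hρ),
    integral_Ioi_rpow_of_lt (by norm_num) hρ]
  · have hP0 : ENNReal.ofReal ρ ≠ 0 := by simpa using hρ
    have hPt : ENNReal.ofReal ρ ≠ (⊤ : ℝ≥0∞) := ENNReal.ofReal_ne_top
    have e1 : ENNReal.ofReal (2 * A) * ENNReal.ofReal (-ρ ^ ((-3 : ℝ) + 1) / (-3 + 1))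
        = ENNReal.ofReal A * ENNReal.ofReal ρ ^ (-2 : ℝ) := by
      rw [ENNReal.ofReal_rpow_of_pos hρ, ← ENNReal.ofReal_mul (by positivity),
        ← ENNReal.ofReal_mul (by positivity)]
      congr 1
      rw [show (-3 : ℝ) + 1 = -2 by norm_num]
      ring
    calc K * ENNReal.ofReal (2 * A) * ENNReal.ofReal (-ρ ^ ((-3 : ℝ) + 1) / (-3 + 1))
        = K * (ENNReal.ofReal A * ENNReal.ofReal ρ ^ (-2 : ℝ)) := by rw [mul_assoc, e1]
      _ = (8 : ℝ≥0∞) ^ (1 / 2 : ℝ) * (ENNReal.ofReal A * ((ENNReal.ofReal ρ ^ (3 / 2 : ℝ)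
            * ENNReal.ofReal ρ ^ (-2 : ℝ)) * eB v x₀ ρ ^ (1 / 2 : ℝ))) := by
          rw [hK, ENNReal.mul_rpow_of_nonneg _ _ (by norm_num), ← ENNReal.rpow_natCast,
            ← ENNReal.rpow_mul, show ((3 : ℕ) : ℝ) * (1 / 2) = 3 / 2 by norm_num]
          ring
      _ = (8 : ℝ≥0∞) ^ (1 / 2 : ℝ) * (ENNReal.ofReal A * (ENNReal.ofReal ρ ^ (-(1 / 2) : ℝ)
            * eB v x₀ ρ ^ (1 / 2 : ℝ))) := by
          rw [← ENNReal.rpow_add _ _ hP0 hPt]
          norm_num
      _ ≤ _ := by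
          refine mul_le_mul_left ?_ _
          calc (8 : ℝ≥0∞) ^ (1 / 2 : ℝ) ≤ (9 : ℝ≥0∞) ^ (1 / 2 : ℝ) :=
                ENNReal.rpow_le_rpow (by norm_num) (by norm_num)
            _ = 3 := by
                rw [show (9 : ℝ≥0∞) = 3 ^ (2 : ℝ) by norm_num, ← ENNReal.rpow_mul]
                norm_num
  · rw [EventuallyLE, ae_restrict_iff' measurableSet_Ioi]
    exact Eventually.of_forall fun R hR => Real.rpow_nonneg (hρ.trans hR).le _

end

end Pool.Agent.H305.PL
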