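import Pool.Agent.H305.PL.Lfm

/-!
The local flux integrated in time.
-/

set_option autoImplicit false

open MeasureTheory Set Metric Filter Topology
open scoped ContDiff ENNReal

namespace Pool.Agent.H305.PL

open H459R3.NS W221.NS Pool.Agent.V1183.PM Pool.Agent.H305.OS Pool.Agent.H305.SL

/-- The flux in a ball. -/
noncomputable def fB (v : Fin 3 → V → ℝ) (q w : V → ℝ) (x₀ : V) (ρ : ℝ) : ℝ≥0∞ :=
  ∫⁻ x in ball x₀ ρ, ENNReal.ofReal ((nw v x + 2 * |q x|) * |w x|)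

section
variable {c : Fin 3} {ν T : ℝ} {u : ℝ → V → V} {p : ℝ → V → ℝ} {t₀ y A : ℝ} {x₀ : V} {ρ : ℝ}

lemma fB_le {Cp : ℝ}
    (hp : ∀ (w : Fin 3 → V → ℝ) (q : V → ℝ), (∀ i, HF (w i)) →
    (∀ x, ∑ i, H459R3.NS.pd i (w i) x = 0) → HF q → (∀ x, - lp q x = ∑ i, H459R3.NS.pd i (nl w i) x) →
    ∀ r : ℝ, 0 < r → ∀ x, ENNReal.ofReal |q x| ≤ ENNReal.ofReal Cp * (nearP w r x + farP w r x))
    (h : HS ν T u p) {τ : ℝ} (hτ : τ ∈ Ioo 0 T) (hA : 0 ≤ A)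
    (hE : ∀ R, 0 < R → sE (cw u τ) c y R ≤ ENNReal.ofReal (A * R)) (hρ : 0 < ρ) (hx : x₀ c = y)
    (i : Fin 3) :
    fB (cw u τ) (p τ) (cw u τ i) x₀ ρ ≤
      3888 * (eB (cw u τ) x₀ ρ ^ (1 / 2 : ℝ) * (sE (cw u τ) c y (4 * ρ) ^ (1 / 4 : ℝ)
        * Dt (cw u τ) c y ρ ^ (3 / 4 : ℝ)))
      + ENNReal.ofReal (2 * Cp) * (27648 * (ENNReal.ofReal ρ ^ (1 / 8 : ℝ)
        * (eB (cw u τ) x₀ ρ ^ (1 / 12 : ℝ)
        * (sE (cw u τ) c y (4 * ρ) ^ (29 / 48 : ℝ) * Dt (cw u τ) c y ρ ^ (13 / 16 : ℝ))))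
        + 3 * (ENNReal.ofReal A * (ENNReal.ofReal ρ ^ (-(1 / 2) : ℝ)
          * eB (cw u τ) x₀ ρ ^ (1 / 2 : ℝ)))) := by
  have hv : ∀ i, HF (cw u τ i) := fun i => h.cw_HF hτ i
  have hw : Continuous (cw u τ i) := (hv i).sm.continuous
  have cn := nw_cont hv
  have mw : Measurable fun x => ENNReal.ofReal |cw u τ i x| := hw.measurable.norm.ennreal_ofReal
  have h2 : fB (cw u τ) (p τ) (cw u τ i) x₀ ρ ≤
      (∫⁻ x in ball x₀ ρ, ENNReal.ofReal (|cw u τ i x| * nw (cw u τ) x))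
      + ENNReal.ofReal (2 * Cp) * ((∫⁻ x in ball x₀ ρ, ENNReal.ofReal |cw u τ i x| * nearP (cw u τ) ρ x)
        + ∫⁻ x in ball x₀ ρ, ENNReal.ofReal |cw u τ i x| * farP (cw u τ) ρ x) := by
    have m1 : Measurable fun x => ENNReal.ofReal (|cw u τ i x| * nw (cw u τ) x) :=
      (ENNReal.continuous_ofReal.comp (hw.abs.mul cn)).measurable
    have m2 : Measurable fun x => ENNReal.ofReal |cw u τ i x| * nearP (cw u τ) ρ x := by
      apply mw.mul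
      unfold nearP
      have cG : Continuous fun x => √(nw (cw u τ) x) * √(gw (cw u τ) x) :=
        cn.sqrt.mul (gw_cont hv).sqrt
      have : Measurable fun z : V × ℝ => ∫⁻ y' in closedBall (0 : V) 1,
          ENNReal.ofReal (√(nw (cw u τ) (z.1 + z.2 • y')) * √(gw (cw u τ) (z.1 + z.2 • y'))) := by
        have : Measurable fun q : (V × ℝ) × V => ENNReal.ofReal
            ((fun x => √(nw (cw u τ) x) * √(gw (cw u τ) x)) (q.1.1 + q.1.2 • q.2)) := by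
          have : Continuous fun q : (V × ℝ) × V =>
              (fun x => √(nw (cw u τ) x) * √(gw (cw u τ) x)) (q.1.1 + q.1.2 • q.2) :=
            cG.comp (by fun_prop)
          exact (ENNReal.continuous_ofReal.comp this).measurable
        exact this.lintegral_prod_right'
      exact this.lintegral_prod_right'
    unfold fB
    rw [← lintegral_add_left m2, ← lintegral_const_mul' _ _ ENNReal.ofReal_ne_top,
      ← lintegral_add_left m1]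
    apply lintegral_mono
    intro x
    simp only
    have h2 : ENNReal.ofReal ((nw (cw u τ) x + 2 * |p τ x|) * |cw u τ i x|)
        = ENNReal.ofReal (|cw u τ i x| * nw (cw u τ) x) + ENNReal.ofReal 2 *
          (ENNReal.ofReal |cw u τ i x| * ENNReal.ofReal |p τ x|) := by
      have n1 := nw_nonneg (cw u τ) x
      rw [← ENNReal.ofReal_mul (abs_nonneg _), ← ENNReal.ofReal_mul (by norm_num),
        ← ENNReal.ofReal_add (by positivity) (by positivity)]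
      congr 1
      ring
    rw [h2]
    have h3 := hp (cw u τ) (p τ) hv (h.div τ hτ) (h.p_HF hτ) (HS.press h hτ) ρ hρ x
    calc ENNReal.ofReal (|cw u τ i x| * nw (cw u τ) x) + ENNReal.ofReal 2 *
          (ENNReal.ofReal |cw u τ i x| * ENNReal.ofReal |p τ x|)
        ≤ ENNReal.ofReal (|cw u τ i x| * nw (cw u τ) x) + ENNReal.ofReal 2 *
          (ENNReal.ofReal |cw u τ i x| * (ENNReal.ofReal Cp
            * (nearP (cw u τ) ρ x + farP (cw u τ) ρ x))) :=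
          add_le_add le_rfl (mul_le_mul_right (mul_le_mul_right h3 _) _)
      _ = _ := by
          rw [ENNReal.ofReal_mul (by norm_num : (0 : ℝ) ≤ 2)]
          ring
  refine h2.trans ?_
  have c1 := cubB (c := c) (y := y) hv hρ hx i
  have c2 := nearB (c := c) (y := y) hv hρ hx i
  have c3 := farB (c := c) (y := y) hv hρ hx i hA hE
  exact add_le_add c1 (mul_le_mul_right (add_le_add c2 c3) _)

lemma PY.Dt_int (h : PY ν T u p c t₀ y A) {s s' : ℝ} (hs' : t₀ ≤ s')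
    (hss : s' ≤ s) (hs : s < T) (hρ : 0 < ρ) (hk : s - s' ≤ ρ ^ 2) :
    ∫⁻ τ in Ioc s' s, Dt (cw u τ) c y ρ ≤ ENNReal.ofReal (8 * B1 ^ 2 * A * ρ) := by
  have hA := h.A0
  have hB1 := B1_one
  have hI : Ioc s' s ⊆ Ioo 0 T := fun τ hτ => ⟨h.t0.trans_le (hs'.trans hτ.1.le), hτ.2.trans_lt hs⟩
  unfold Dt
  rw [lintegral_add_left' (HS.m_sG h.toHS c y _ measurableSet_Ioc hI),
    lintegral_const_mul' _ _ ENNReal.ofReal_ne_top]
  have h1 := h.sb2 (4 * ρ) (by linarith) s' s hs' hss hs (by nlinarith)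
  have h2 : ∫⁻ τ in Ioc s' s, sE (cw u τ) c y (4 * ρ)
      ≤ ENNReal.ofReal (A * (4 * ρ) * ρ ^ 2) := by
    calc ∫⁻ τ in Ioc s' s, sE (cw u τ) c y (4 * ρ)
        ≤ ∫⁻ τ in Ioc s' s, ENNReal.ofReal (A * (4 * ρ)) := by
          apply setLIntegral_mono' measurableSet_Ioc
          intro τ hτ
          exact h.sb1 (4 * ρ) (by linarith) τ ⟨hs'.trans hτ.1.le, hτ.2.trans_lt hs⟩
      _ = ENNReal.ofReal (A * (4 * ρ)) * ENNReal.ofReal (s - s') := by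
          rw [setLIntegral_const, Real.volume_Ioc]
      _ ≤ _ := by
          rw [← ENNReal.ofReal_mul (by positivity)]
          apply ENNReal.ofReal_le_ofReal
          gcongr
  calc _ ≤ ENNReal.ofReal (A * (4 * ρ)) + ENNReal.ofReal ((B1 / ρ) ^ 2)
        * ENNReal.ofReal (A * (4 * ρ) * ρ ^ 2) := by gcongr
    _ = ENNReal.ofReal (4 * (A * ρ) + 4 * B1 ^ 2 * (A * ρ)) := by
        rw [← ENNReal.ofReal_mul (by positivity), ← ENNReal.ofReal_add (by positivity) (by positivity)]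
        congr 1
        field_simp
    _ ≤ _ := by
        apply ENNReal.ofReal_le_ofReal
        have hp : (0 : ℝ) ≤ A * ρ := by positivity
        nlinarith [mul_le_mul_of_nonneg_right (one_le_pow₀ hB1 (n := 2)) hp]

lemma eB_aem (h : HS ν T u p) (x₀ : V) (ρ : ℝ) {I : Set ℝ}
    (hI : MeasurableSet I) (hIT : I ⊆ Ioo 0 T) :
    AEMeasurable (fun τ => eB (cw u τ) x₀ ρ) (volume.restrict I) :=
  J_aem (HS.j_nw h) hI hIT

/-- The local flux integrated in time. -/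
theorem LF : ∃ C : ℝ, 0 ≤ C ∧ ∀ (c : Fin 3) (ν T : ℝ) (u : ℝ → V → V) (p : ℝ → V → ℝ)
    (t₀ y A : ℝ), PY ν T u p c t₀ y A → ∀ (i : Fin 3) (x₀ : V) (ρ s' s η : ℝ), x₀ c = y → 0 < ρ →
    t₀ ≤ s' → s' ≤ s → s < T → s - s' ≤ ρ ^ 2 → 0 ≤ η →
    ∫⁻ τ in Ioc s' s, eB (cw u τ) x₀ ρ ≤ ENNReal.ofReal (η * ρ ^ 3) →
    ∫⁻ τ in Ioc s' s, fB (cw u τ) (p τ) (cw u τ i) x₀ ρ
      ≤ ENNReal.ofReal (C * (1 + A) ^ 2 * η ^ (1 / 12 : ℝ) * ρ ^ 2) := by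
  obtain ⟨Cp, hCp, hp⟩ := press_bd
  have hB1 := B1_one
  refine ⟨(3888 + 2 * Cp * 27651) * (8 * B1 ^ 2) ^ 2, by positivity, ?_⟩
  intro c ν T u p t₀ y A h i x₀ ρ s' s η hx hρ hs' hss hs hk hη hY
  have hA := h.A0
  have hI : Ioc s' s ⊆ Ioo 0 T := fun τ hτ => ⟨h.t0.trans_le (hs'.trans hτ.1.le), hτ.2.trans_lt hs⟩
  obtain ⟨X, hX⟩ : ∃ X : ℝ≥0∞, X = ENNReal.ofReal (8 * B1 ^ 2 * (1 + A)) := ⟨_, rfl⟩
  obtain ⟨P, hP⟩ : ∃ P : ℝ≥0∞, P = ENNReal.ofReal ρ := ⟨_, rfl⟩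
  obtain ⟨H, hH⟩ : ∃ H : ℝ≥0∞, H = ENNReal.ofReal η := ⟨_, rfl⟩
  have hX1 : 1 ≤ X := by
    rw [hX, ← ENNReal.ofReal_one]
    apply ENNReal.ofReal_le_ofReal
    nlinarith
  have hP0 : P ≠ 0 := by
    rw [hP]
    simpa using hρ
  have hPt : P ≠ (⊤ : ℝ≥0∞) := by rw [hP]; exact ENNReal.ofReal_ne_top
  have hPa : ∀ a b : ℝ, P ^ a * P ^ b = P ^ (a + b) := fun a b => (ENNReal.rpow_add a b hP0 hPt).symm
  have hXa : ∀ a b : ℝ, 0 ≤ a → 0 ≤ b → X ^ a * X ^ b = X ^ (a + b) := fun a b ha hb =>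
    (ENNReal.rpow_add_of_nonneg a b ha hb).symm
  have hAX : ENNReal.ofReal A ≤ X := by
    rw [hX]
    apply ENNReal.ofReal_le_ofReal
    nlinarith [one_le_pow₀ hB1 (n := 2)]
  -- pointwise
  have h1 : ∀ τ ∈ Ioc s' s, fB (cw u τ) (p τ) (cw u τ i) x₀ ρ ≤
      3888 * ((X * P) ^ (2 / 3 : ℝ) * (eB (cw u τ) x₀ ρ ^ (1 / 12 : ℝ) * Dt (cw u τ) c y ρ ^ (3 / 4 : ℝ)))
      + ENNReal.ofReal (2 * Cp) * (27648 * ((P ^ (1 / 8 : ℝ) * (X * P) ^ (29 / 48 : ℝ))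
        * (eB (cw u τ) x₀ ρ ^ (1 / 12 : ℝ) * Dt (cw u τ) c y ρ ^ (13 / 16 : ℝ)))
        + 3 * ((X * (P ^ (-(1 / 2) : ℝ) * (X * P) ^ (5 / 12 : ℝ)))
          * (eB (cw u τ) x₀ ρ ^ (1 / 12 : ℝ) * Dt (cw u τ) c y ρ ^ (0 : ℝ)))) := by
    intro τ hτ
    have hτ1 : τ ∈ Ico t₀ T := ⟨hs'.trans hτ.1.le, hτ.2.trans_lt hs⟩
    have h2 := fB_le hp h.toHS (hI hτ) hA (fun R hR => h.sb1 R hR τ hτ1) hρ hx i
    rw [← hP] at h2
    refine h2.trans ?_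
    have h3 : sE (cw u τ) c y (4 * ρ) ≤ X * P := by
      refine (h.sb1 (4 * ρ) (by linarith) τ hτ1).trans ?_
      rw [hX, hP, ← ENNReal.ofReal_mul (by positivity)]
      apply ENNReal.ofReal_le_ofReal
      have : 0 ≤ A * ρ := by positivity
      nlinarith [mul_le_mul_of_nonneg_right (one_le_pow₀ hB1 (n := 2)) this,
        mul_pos (by positivity : 0 < B1 ^ 2) hρ]
    have h4 : eB (cw u τ) x₀ ρ ≤ X * P := (eB_le hx hρ).trans h3
    have h5 : eB (cw u τ) x₀ ρ ^ (1 / 2 : ℝ)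
        ≤ eB (cw u τ) x₀ ρ ^ (1 / 12 : ℝ) * (X * P) ^ (5 / 12 : ℝ) := by
      calc eB (cw u τ) x₀ ρ ^ (1 / 2 : ℝ)
          = eB (cw u τ) x₀ ρ ^ (1 / 12 : ℝ) * eB (cw u τ) x₀ ρ ^ (5 / 12 : ℝ) := by
            rw [← ENNReal.rpow_add_of_nonneg _ _ (by norm_num) (by norm_num)]
            norm_num
        _ ≤ _ := mul_le_mul_right (ENNReal.rpow_le_rpow h4 (by norm_num)) _
    have e1 : (X * P) ^ (5 / 12 : ℝ) * (X * P) ^ (1 / 4 : ℝ) = (X * P) ^ (2 / 3 : ℝ) := by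
      rw [← ENNReal.rpow_add_of_nonneg _ _ (by norm_num) (by norm_num)]
      norm_num
    refine add_le_add ?_ (mul_le_mul_right (add_le_add ?_ ?_) _)
    · refine mul_le_mul_right ?_ _
      calc eB (cw u τ) x₀ ρ ^ (1 / 2 : ℝ) * (sE (cw u τ) c y (4 * ρ) ^ (1 / 4 : ℝ)
            * Dt (cw u τ) c y ρ ^ (3 / 4 : ℝ))
          ≤ (eB (cw u τ) x₀ ρ ^ (1 / 12 : ℝ) * (X * P) ^ (5 / 12 : ℝ)) * ((X * P) ^ (1 / 4 : ℝ)
            * Dt (cw u τ) c y ρ ^ (3 / 4 : ℝ)) :=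
            mul_le_mul' h5 (mul_le_mul_left (ENNReal.rpow_le_rpow h3 (by norm_num)) _)
        _ = ((X * P) ^ (5 / 12 : ℝ) * (X * P) ^ (1 / 4 : ℝ))
            * (eB (cw u τ) x₀ ρ ^ (1 / 12 : ℝ) * Dt (cw u τ) c y ρ ^ (3 / 4 : ℝ)) := by ring
        _ = _ := by rw [e1]
    · refine mul_le_mul_right ?_ _
      calc P ^ (1 / 8 : ℝ) * (eB (cw u τ) x₀ ρ ^ (1 / 12 : ℝ)
            * (sE (cw u τ) c y (4 * ρ) ^ (29 / 48 : ℝ) * Dt (cw u τ) c y ρ ^ (13 / 16 : ℝ)))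
          ≤ P ^ (1 / 8 : ℝ) * (eB (cw u τ) x₀ ρ ^ (1 / 12 : ℝ)
            * ((X * P) ^ (29 / 48 : ℝ) * Dt (cw u τ) c y ρ ^ (13 / 16 : ℝ))) :=
            mul_le_mul_right (mul_le_mul_right (mul_le_mul_left
              (ENNReal.rpow_le_rpow h3 (by norm_num)) _) _) _
        _ = _ := by ring
    · refine mul_le_mul_right ?_ _
      rw [ENNReal.rpow_zero, mul_one]
      calc ENNReal.ofReal A * (P ^ (-(1 / 2) : ℝ) * eB (cw u τ) x₀ ρ ^ (1 / 2 : ℝ))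
          ≤ X * (P ^ (-(1 / 2) : ℝ) * (eB (cw u τ) x₀ ρ ^ (1 / 12 : ℝ) * (X * P) ^ (5 / 12 : ℝ))) :=
            mul_le_mul' hAX (mul_le_mul_right h5 _)
        _ = _ := by ring
  have mD : AEMeasurable (fun τ => Dt (cw u τ) c y ρ) (volume.restrict (Ioc s' s)) := by
    unfold Dt
    exact (HS.m_sG h.toHS c y _ measurableSet_Ioc hI).add
      ((HS.m_sE h.toHS c y _ measurableSet_Ioc hI).const_mul _)
  have mE : AEMeasurable (fun τ => eB (cw u τ) x₀ ρ) (volume.restrict (Ioc s' s)) :=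
    eB_aem h.toHS x₀ ρ measurableSet_Ioc hI
  have hDi : ∫⁻ τ in Ioc s' s, Dt (cw u τ) c y ρ ≤ X * P := by
    refine (h.Dt_int hs' hss hs hρ hk).trans ?_
    rw [hX, hP, ← ENNReal.ofReal_mul (by positivity)]
    apply ENNReal.ofReal_le_ofReal
    gcongr
    linarith
  have hvol : volume (Ioc s' s) ≤ P ^ (2 : ℝ) := by
    rw [Real.volume_Ioc, hP, ENNReal.ofReal_rpow_of_pos hρ, Real.rpow_two]
    exact ENNReal.ofReal_le_ofReal hk
  have hYi : ∫⁻ τ in Ioc s' s, eB (cw u τ) x₀ ρ ≤ H * P ^ (3 : ℝ) := by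
    refine hY.trans (le_of_eq ?_)
    rw [hP, hH, ENNReal.ofReal_rpow_of_pos hρ, ENNReal.ofReal_mul hη]
    norm_num
  have tint : ∀ β : ℝ, 0 ≤ β → β ≤ 11 / 12 →
      ∫⁻ τ in Ioc s' s, eB (cw u τ) x₀ ρ ^ (1 / 12 : ℝ) * Dt (cw u τ) c y ρ ^ β
        ≤ H ^ (1 / 12 : ℝ) * (X ^ β * P ^ (25 / 12 - β)) := by
    intro β h0 h1
    have hh := hol3 (μ := volume.restrict (Ioc s' s)) (f := fun τ => eB (cw u τ) x₀ ρ)
      (g := fun τ => Dt (cw u τ) c y ρ) (h := fun _ => 1) mE mD aemeasurable_const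
      (p := 1 / 12) (q := β) (r := 11 / 12 - β) (by norm_num) h0 (by linarith) (by ring)
    simp only [ENNReal.one_rpow, mul_one, setLIntegral_one] at hh
    refine hh.trans ?_
    calc (∫⁻ τ in Ioc s' s, eB (cw u τ) x₀ ρ) ^ (1 / 12 : ℝ)
          * (∫⁻ τ in Ioc s' s, Dt (cw u τ) c y ρ) ^ β * volume (Ioc s' s) ^ (11 / 12 - β)
        ≤ (H * P ^ (3 : ℝ)) ^ (1 / 12 : ℝ) * (X * P) ^ β * (P ^ (2 : ℝ)) ^ (11 / 12 - β) :=
          mul_le_mul' (mul_le_mul' (ENNReal.rpow_le_rpow hYi (by norm_num))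
            (ENNReal.rpow_le_rpow hDi h0)) (ENNReal.rpow_le_rpow hvol (by linarith))
      _ = H ^ (1 / 12 : ℝ) * (X ^ β * ((P ^ (3 * (1 / 12) : ℝ) * P ^ β) * P ^ (2 * (11 / 12 - β)))) := by
          rw [ENNReal.mul_rpow_of_nonneg _ _ (by norm_num), ENNReal.mul_rpow_of_nonneg _ _ h0,
            ← ENNReal.rpow_mul, ← ENNReal.rpow_mul]
          ring
      _ = _ := by
          rw [hPa, hPa]
          congr 3
          ring
  have q1 : (X * P) ^ (2 / 3 : ℝ) * ∫⁻ τ in Ioc s' s,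
      (eB (cw u τ) x₀ ρ ^ (1 / 12 : ℝ) * Dt (cw u τ) c y ρ ^ (3 / 4 : ℝ))
      ≤ X ^ (17 / 12 : ℝ) * H ^ (1 / 12 : ℝ) * P ^ (2 : ℝ) := by
    refine (mul_le_mul_right (tint (3 / 4) (by norm_num) (by norm_num)) _).trans (le_of_eq ?_)
    rw [ENNReal.mul_rpow_of_nonneg _ _ (by norm_num)]
    calc X ^ (2 / 3 : ℝ) * P ^ (2 / 3 : ℝ) * (H ^ (1 / 12 : ℝ) * (X ^ (3 / 4 : ℝ)
          * P ^ (25 / 12 - 3 / 4 : ℝ)))
        = (X ^ (2 / 3 : ℝ) * X ^ (3 / 4 : ℝ)) * H ^ (1 / 12 : ℝ)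
          * (P ^ (2 / 3 : ℝ) * P ^ (25 / 12 - 3 / 4 : ℝ)) := by ring
      _ = _ := by
          rw [hPa, hXa _ _ (by norm_num) (by norm_num)]
          norm_num
  have q2 : (P ^ (1 / 8 : ℝ) * (X * P) ^ (29 / 48 : ℝ)) * ∫⁻ τ in Ioc s' s,
      (eB (cw u τ) x₀ ρ ^ (1 / 12 : ℝ) * Dt (cw u τ) c y ρ ^ (13 / 16 : ℝ))
      ≤ X ^ (17 / 12 : ℝ) * H ^ (1 / 12 : ℝ) * P ^ (2 : ℝ) := by
    refine (mul_le_mul_right (tint (13 / 16) (by norm_num) (by norm_num)) _).trans (le_of_eq ?_)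
    rw [ENNReal.mul_rpow_of_nonneg _ _ (by norm_num)]
    calc P ^ (1 / 8 : ℝ) * (X ^ (29 / 48 : ℝ) * P ^ (29 / 48 : ℝ)) * (H ^ (1 / 12 : ℝ)
          * (X ^ (13 / 16 : ℝ) * P ^ (25 / 12 - 13 / 16 : ℝ)))
        = (X ^ (29 / 48 : ℝ) * X ^ (13 / 16 : ℝ)) * H ^ (1 / 12 : ℝ)
          * ((P ^ (1 / 8 : ℝ) * P ^ (29 / 48 : ℝ)) * P ^ (25 / 12 - 13 / 16 : ℝ)) := by ring
      _ = _ := by
          rw [hPa, hPa, hXa _ _ (by norm_num) (by norm_num)]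
          norm_num
  have q3 : (X * (P ^ (-(1 / 2) : ℝ) * (X * P) ^ (5 / 12 : ℝ))) * ∫⁻ τ in Ioc s' s,
      (eB (cw u τ) x₀ ρ ^ (1 / 12 : ℝ) * Dt (cw u τ) c y ρ ^ (0 : ℝ))
      ≤ X ^ (17 / 12 : ℝ) * H ^ (1 / 12 : ℝ) * P ^ (2 : ℝ) := by
    refine (mul_le_mul_right (tint 0 (by norm_num) (by norm_num)) _).trans (le_of_eq ?_)
    rw [ENNReal.mul_rpow_of_nonneg _ _ (by norm_num), ENNReal.rpow_zero, one_mul, sub_zero]
    calc X * (P ^ (-(1 / 2) : ℝ) * (X ^ (5 / 12 : ℝ) * P ^ (5 / 12 : ℝ))) * (H ^ (1 / 12 : ℝ)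
          * P ^ (25 / 12 : ℝ))
        = (X ^ (1 : ℝ) * X ^ (5 / 12 : ℝ)) * H ^ (1 / 12 : ℝ)
          * ((P ^ (-(1 / 2) : ℝ) * P ^ (5 / 12 : ℝ)) * P ^ (25 / 12 : ℝ)) := by
          rw [ENNReal.rpow_one]
          ring
      _ = _ := by
          rw [hPa, hPa, hXa _ _ (by norm_num) (by norm_num)]
          norm_num
  have hm : ∀ β : ℝ, AEMeasurable (fun τ => eB (cw u τ) x₀ ρ ^ (1 / 12 : ℝ)
      * Dt (cw u τ) c y ρ ^ β) (volume.restrict (Ioc s' s)) := fun β =>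
    (mE.pow_const _).mul (mD.pow_const _)
  have m1 : AEMeasurable (fun τ => 3888 * ((X * P) ^ (2 / 3 : ℝ) * (eB (cw u τ) x₀ ρ ^ (1 / 12 : ℝ)
      * Dt (cw u τ) c y ρ ^ (3 / 4 : ℝ)))) (volume.restrict (Ioc s' s)) :=
    ((hm _).const_mul _).const_mul _
  have m2 : AEMeasurable (fun τ => 27648 * ((P ^ (1 / 8 : ℝ) * (X * P) ^ (29 / 48 : ℝ))
      * (eB (cw u τ) x₀ ρ ^ (1 / 12 : ℝ) * Dt (cw u τ) c y ρ ^ (13 / 16 : ℝ))))
      (volume.restrict (Ioc s' s)) := ((hm _).const_mul _).const_mul _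
  have hX17 : X ^ (17 / 12 : ℝ) ≤ X ^ 2 := by
    rw [← ENNReal.rpow_two]
    exact ENNReal.rpow_le_rpow_of_exponent_le hX1 (by norm_num)
  refine (setLIntegral_mono' measurableSet_Ioc h1).trans ?_
  rw [lintegral_add_left' m1, lintegral_const_mul' _ _ ENNReal.ofReal_ne_top,
    lintegral_add_left' m2, lintegral_const_mul'' _ ((hm _).const_mul _), lintegral_const_mul'' _ (hm _),
    lintegral_const_mul'' _ ((hm _).const_mul _), lintegral_const_mul'' _ (hm _),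
    lintegral_const_mul'' _ ((hm _).const_mul _), lintegral_const_mul'' _ (hm _)]
  calc _ ≤ 3888 * (X ^ (17 / 12 : ℝ) * H ^ (1 / 12 : ℝ) * P ^ (2 : ℝ))
        + ENNReal.ofReal (2 * Cp) * (27648 * (X ^ (17 / 12 : ℝ) * H ^ (1 / 12 : ℝ) * P ^ (2 : ℝ))
        + 3 * (X ^ (17 / 12 : ℝ) * H ^ (1 / 12 : ℝ) * P ^ (2 : ℝ))) :=
        add_le_add (mul_le_mul_right q1 _) (mul_le_mul_right (add_le_add (mul_le_mul_right q2 _)
          (mul_le_mul_right q3 _)) _)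
    _ = (3888 + ENNReal.ofReal (2 * Cp) * 27651) * (X ^ (17 / 12 : ℝ) * H ^ (1 / 12 : ℝ)
        * P ^ (2 : ℝ)) := by ring
    _ ≤ (3888 + ENNReal.ofReal (2 * Cp) * 27651) * (X ^ 2 * H ^ (1 / 12 : ℝ) * P ^ (2 : ℝ)) :=
        mul_le_mul_right (mul_le_mul_left (mul_le_mul_left hX17 _) _) _
    _ = _ := by
        rw [show (3888 : ℝ≥0∞) = ENNReal.ofReal 3888 by norm_num,
          show (27651 : ℝ≥0∞) = ENNReal.ofReal 27651 by norm_num, hX, hP, hH,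
          ENNReal.ofReal_rpow_of_nonneg hη (by norm_num), ENNReal.ofReal_rpow_of_pos hρ,
          ← ENNReal.ofReal_pow (by positivity), ← ENNReal.ofReal_mul (by positivity),
          ← ENNReal.ofReal_add (by positivity) (by positivity), ← ENNReal.ofReal_mul (by positivity),
          ← ENNReal.ofReal_mul (by positivity), ← ENNReal.ofReal_mul (by positivity), Real.rpow_two]
        congr 1
        ring

end

end Pool.Agent.H305.PL
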