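import Pool.Agent.H305.PL.Pye

/-!
The bounds for the slabs around one plane.
-/

set_option autoImplicit false

open MeasureTheory Set Metric Filter Topology
open scoped ContDiff ENNReal

namespace Pool.Agent.H305.PL

open H459R3.NS W221.NS Pool.Agent.V1183.PM Pool.Agent.H305.OS Pool.Agent.H305.SL

/-- The bounds for the slabs around the plane `x c = y`. -/
structure PY (ν T : ℝ) (u : ℝ → V → V) (p : ℝ → V → ℝ) (c : Fin 3) (t₀ y A : ℝ) : Prop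
    extends HS ν T u p where
  t0 : 0 < t₀
  tT : t₀ < T
  A0 : 0 ≤ A
  sb1 : ∀ ρ : ℝ, 0 < ρ → ∀ s ∈ Ico t₀ T, sE (cw u s) c y ρ ≤ ENNReal.ofReal (A * ρ)
  sb2 : ∀ ρ : ℝ, 0 < ρ → ∀ s' s : ℝ, t₀ ≤ s' → s' ≤ s → s < T → s - s' ≤ ρ ^ 2 →
    ∫⁻ τ in Ioc s' s, sG (cw u τ) c y ρ ≤ ENNReal.ofReal (A * ρ)
  vx : ∃ M : ℝ, ∫⁻ τ in Ioo t₀ T, ∫⁻ x, ENNReal.ofReal (gw (cw u τ) x)
    * ENNReal.ofReal (gk ν (T - τ) (x c - y)) ≤ ENNReal.ofReal M

lemma Ioo_of_Ioc {f : ℝ → ℝ≥0∞} {s₁ T : ℝ} {K : ℝ≥0∞} (hs₁ : s₁ < T)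
    (hd : ∀ t, s₁ ≤ t → t < T → ∫⁻ τ in Ioc s₁ t, f τ ≤ K) : ∫⁻ t in Ioo s₁ T, f t ≤ K := by
  have hT : 0 < T - s₁ := by linarith
  obtain ⟨S, hS⟩ : ∃ S : ℕ → ℝ, S = fun n => T - (T - s₁) * (1 / 2) ^ n := ⟨_, rfl⟩
  have hSm : Monotone S := by
    intro n m hnm
    rw [hS]
    simp only
    have : (1 / 2 : ℝ) ^ m ≤ (1 / 2) ^ n := pow_le_pow_of_le_one (by norm_num) (by norm_num) hnm
    nlinarith
  have hSl : ∀ n, s₁ ≤ S n ∧ S n < T := by
    intro n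
    rw [hS]
    simp only
    have h1 : (1 / 2 : ℝ) ^ n ≤ 1 := pow_le_one₀ (by norm_num) (by norm_num)
    have h2 : (0 : ℝ) < (1 / 2) ^ n := by positivity
    constructor
    · nlinarith
    · nlinarith
  have hU : Ioo s₁ T = ⋃ n, Ioc s₁ (S n) := by
    ext τ
    rw [mem_iUnion]
    constructor
    · intro hτ
      have h1 : 0 < (T - τ) / (T - s₁) := div_pos (by linarith [hτ.2]) hT
      obtain ⟨n, hn⟩ := exists_pow_lt_of_lt_one h1 (show (1 / 2 : ℝ) < 1 by norm_num)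
      refine ⟨n, hτ.1, ?_⟩
      rw [hS]
      simp only
      rw [lt_div_iff₀ hT] at hn
      linarith
    · rintro ⟨n, hn⟩
      exact ⟨hn.1, hn.2.trans_lt (hSl n).2⟩
  have hD : Directed (· ⊆ ·) fun n => Ioc s₁ (S n) := by
    refine Monotone.directed_le fun n m hnm => ?_
    exact Ioc_subset_Ioc_right (hSm hnm)
  rw [hU, setLIntegral_iUnion_of_directed _ hD]
  exact iSup_le fun n => hd (S n) (hSl n).1 (hSl n).2

/-- From the weight to the slab. -/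
lemma slab_low {ν τ ρ y : ℝ} {c : Fin 3} {F : V → ℝ≥0∞} (hρ : 0 < ρ) (h1 : ρ ^ 2 ≤ τ)
    (h2 : τ ≤ 2 * ρ ^ 2) (hν : 0 < ν) :
    ∫⁻ x in slb c y ρ, F x ≤ ENNReal.ofReal (2 * ρ * Real.exp (1 / (4 * ν)))
      * ∫⁻ x, F x * ENNReal.ofReal (gk ν τ (x c - y)) := by
  have hE := Real.exp_pos (1 / (4 * ν))
  have e1 : ∀ x ∈ slb c y ρ, F x ≤ ENNReal.ofReal (2 * ρ * Real.exp (1 / (4 * ν)))
      * (F x * ENNReal.ofReal (gk ν τ (x c - y))) := by
    intro x hx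
    have hx' : |x c - y| ≤ 1 * ρ := by
      rw [one_mul]
      exact le_of_lt hx
    have h3 := gk_low (ν := ν) hν hρ h1 h2 hx'
    have h4 : 1 ≤ 2 * ρ * Real.exp (1 / (4 * ν)) * gk ν τ (x c - y) := by
      calc (1 : ℝ) = 2 * ρ * Real.exp (1 / (4 * ν)) * ((2 * ρ)⁻¹ * Real.exp (-(1 ^ 2 / (4 * ν)))) := by
            rw [one_pow, Real.exp_neg]
            field_simp
        _ ≤ _ := mul_le_mul_of_nonneg_left h3 (by positivity)
    calc F x = F x * 1 := (mul_one _).symm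
      _ ≤ F x * ENNReal.ofReal (2 * ρ * Real.exp (1 / (4 * ν)) * gk ν τ (x c - y)) := by
          refine mul_le_mul_right ?_ _
          rw [← ENNReal.ofReal_one]
          exact ENNReal.ofReal_le_ofReal h4
      _ = _ := by
          rw [ENNReal.ofReal_mul (by positivity)]
          ring
  calc ∫⁻ x in slb c y ρ, F x ≤ ∫⁻ x in slb c y ρ, ENNReal.ofReal (2 * ρ * Real.exp (1 / (4 * ν)))
        * (F x * ENNReal.ofReal (gk ν τ (x c - y))) := setLIntegral_mono' slb_meas e1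
    _ = ENNReal.ofReal (2 * ρ * Real.exp (1 / (4 * ν)))
        * ∫⁻ x in slb c y ρ, F x * ENNReal.ofReal (gk ν τ (x c - y)) :=
        lintegral_const_mul' _ _ ENNReal.ofReal_ne_top
    _ ≤ _ := mul_le_mul_right (setLIntegral_le_lintegral _ _) _

section
variable {ν T δ y : ℝ} {c : Fin 3} {u : ℝ → V → V} {p : ℝ → V → ℝ} {m : ℝ → ℝ}

theorem PY_of (h : HS ν T u p) {t₀ : ℝ} (ht₀ : 0 < t₀) (htT : t₀ < T) (hδ : 0 < δ)
    (hm : IntegrableOn m (Ioo t₀ T))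
    (hin : ∀ᵐ τ ∂(volume.restrict (Ioo t₀ T)), InF ν δ c y (cw u τ) (p τ) (m τ)) :
    ∃ A : ℝ, PY ν T u p c t₀ y A := by
  have hν := h.hν
  obtain ⟨R, hR, hb⟩ := pl_bd h ht₀ htT hδ hm hin
  have hE := Real.exp_pos (1 / (4 * ν))
  refine ⟨2 * Real.exp (1 / (4 * ν)) * R, h, ht₀, htT, by positivity, ?_, ?_, ⟨R, ?_⟩⟩
  · intro ρ hρ s hs
    have h1 := (hb s hs (s + ρ ^ 2) (by linarith [pow_pos hρ 2])).1
    unfold sE
    refine (slab_low (ν := ν) (τ := s + ρ ^ 2 - s) hρ (by linarith) (by linarith [pow_pos hρ 2])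
      hν).trans ((mul_le_mul_right h1 _).trans (le_of_eq ?_))
    rw [← ENNReal.ofReal_mul (by positivity)]
    congr 1
    ring
  · intro ρ hρ s' s hs' hss hs hk
    have h1 := (hb s ⟨hs'.trans hss, hs⟩ (s + ρ ^ 2) (by linarith [pow_pos hρ 2])).2
    calc ∫⁻ τ in Ioc s' s, sG (cw u τ) c y ρ
        ≤ ∫⁻ τ in Ioc s' s, ENNReal.ofReal (2 * ρ * Real.exp (1 / (4 * ν)))
          * ∫⁻ x, ENNReal.ofReal (gw (cw u τ) x)
            * ENNReal.ofReal (gk ν (s + ρ ^ 2 - τ) (x c - y)) := by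
          refine setLIntegral_mono' measurableSet_Ioc fun τ hτ => ?_
          exact slab_low hρ (by linarith [hτ.2]) (by linarith [hτ.1]) hν
      _ ≤ ENNReal.ofReal (2 * ρ * Real.exp (1 / (4 * ν))) * ENNReal.ofReal R := by
          rw [lintegral_const_mul' _ _ ENNReal.ofReal_ne_top]
          exact mul_le_mul_right ((lintegral_mono_set (Ioc_subset_Ioc_left hs')).trans h1) _
      _ = _ := by
          rw [← ENNReal.ofReal_mul (by positivity)]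
          congr 1
          ring
  · exact Ioo_of_Ioc htT fun s hs1 hs2 => (hb s ⟨hs1, hs2⟩ T hs2).2

end

end Pool.Agent.H305.PL
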