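import Pool.Agent.H305.PL.Psm
import Pool.Agent.H305.SL.Bdd

/-!
Boundedness near the plane.
-/

set_option autoImplicit false

open MeasureTheory Set Metric Filter Topology
open scoped ContDiff ENNReal

namespace Pool.Agent.H305.PL

open H459R3.NS W221.NS Pool.Agent.V1183.PM Pool.Agent.H305.OS Pool.Agent.H305.SL

section
variable {c : Fin 3} {ν T : ℝ} {u : ℝ → V → V} {p : ℝ → V → ℝ} {t₀ y A : ℝ}

/-- Boundedness near the plane. -/
theorem PY.near (h : PY ν T u p c t₀ y A) : ∃ δ Q : ℝ, 0 < δ ∧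
    ∀ t ∈ Ioo (T - δ) T, ∀ x : V, |x c - y| < δ → ‖u t x‖ ≤ Q := by
  obtain ⟨C, ε₀, hC, hε₀, hreg⟩ := reg'
  have hν := h.hν
  have hA := h.A0
  obtain ⟨b, hb, hb2⟩ : ∃ b : ℝ, 0 < b ∧ b ^ 2 = ν / 16 := by
    refine ⟨√(ν / 16), Real.sqrt_pos.2 (by positivity), Real.sq_sqrt (by positivity)⟩
  obtain ⟨q, hq⟩ : ∃ q : ℝ, q = 1 + C * b + C * (ν⁻¹ * √(3 * A * b)) := ⟨_, rfl⟩
  have hq1 : 1 ≤ q := by
    have h1 : 0 ≤ C * b := by positivity
    have h2 : 0 ≤ C * (ν⁻¹ * √(3 * A * b)) := by positivity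
    linarith
  obtain ⟨L, hL⟩ : ∃ L : ℝ, L = q ^ 2 := ⟨_, rfl⟩
  have hL1 : 1 ≤ L := by rw [hL]; exact one_le_pow₀ hq1
  have hL0 : 0 < L := by linarith
  have hθ : 0 < ε₀ * ν * b := by positivity
  obtain ⟨k, hk0, hk⟩ := (PY.small h hL1 hθ).exists
  have hh : (0 : ℝ) < (1 / 2) ^ k := by positivity
  have h4 : ((1 : ℝ) / 4) ^ k = ((1 / 2) ^ k) ^ 2 := pow4 k
  have h4p : (0 : ℝ) < (1 / 4) ^ k := by positivity
  obtain ⟨m, hm⟩ : ∃ m : ℝ, m = A * (3 * (L * (1 / 2) ^ k)) := ⟨_, rfl⟩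
  have hm0 : 0 ≤ m := by rw [hm]; positivity
  have hr : 0 < b * (1 / 2) ^ k := by positivity
  obtain ⟨δ, Q, hδ, hQ⟩ := hreg ν m (b * (1 / 2) ^ k) hν hm0 hr
  have hrν : (b * (1 / 2) ^ k) ^ 2 / ν = (1 / 4) ^ k / 16 := by
    rw [mul_pow, hb2, ← h4]
    field_simp
  have hCρ : C * (b * (1 / 2) ^ k + ν⁻¹ * √m * √(b * (1 / 2) ^ k)) ≤ L * (1 / 2) ^ k := by
    have e1 : √m * √(b * (1 / 2) ^ k) = √(3 * A * b) * q * (1 / 2) ^ k := by
      rw [← Real.sqrt_mul hm0, hm, hL]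
      have e2 : A * (3 * (q ^ 2 * (1 / 2) ^ k)) * (b * (1 / 2) ^ k)
          = 3 * A * b * (q * (1 / 2) ^ k) ^ 2 := by ring
      rw [e2, Real.sqrt_mul (by positivity), Real.sqrt_sq (by positivity)]
      ring
    calc C * (b * (1 / 2) ^ k + ν⁻¹ * √m * √(b * (1 / 2) ^ k))
        = (C * b + C * (ν⁻¹ * √(3 * A * b)) * q) * (1 / 2) ^ k := by
          rw [mul_assoc ν⁻¹, e1]; ring
      _ ≤ L * (1 / 2) ^ k := by
          refine mul_le_mul_of_nonneg_right ?_ hh.le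
          have h1 : 0 ≤ C * b := by positivity
          have h2 : 0 ≤ C * (ν⁻¹ * √(3 * A * b)) := by positivity
          rw [hL, pow_two]
          calc C * b + C * (ν⁻¹ * √(3 * A * b)) * q
              ≤ (1 + C * b) * q + C * (ν⁻¹ * √(3 * A * b)) * q := by
                have : C * b ≤ (1 + C * b) * q := by nlinarith
                linarith
            _ = q * q := by rw [hq]; ring
  have ht₀' : 0 < T - (1 / 4) ^ k / 4 := by
    have := h.t0
    linarith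
  refine ⟨min δ ((1 / 4) ^ k / 8), Q, by positivity, ?_⟩
  intro t ht x hx
  have hδ1 : min δ ((1 / 4) ^ k / 8) ≤ δ := min_le_left _ _
  have hδ2 : min δ ((1 / 4 : ℝ) ^ k / 8) ≤ (1 / 4) ^ k / 8 := min_le_right _ _
  have hx0 : (Function.update x c y) c = y := Function.update_self _ _ _
  have hxb : x ∈ ball (Function.update x c y) δ := by
    rw [mem_ball, dist_pi_lt_iff hδ]
    intro i
    by_cases hi : i = c
    · subst hi
      rw [Function.update_self, Real.dist_eq]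
      exact hx.trans_le hδ1
    · rw [Function.update_of_ne hi, dist_self]
      exact hδ
  refine hQ T u p h.toHS (T - (1 / 4) ^ k / 4) ht₀' (Function.update x c y) (L * (1 / 2) ^ k) hCρ ?_
    ((t + T) / 2) ?_ ?_ ?_ t ?_ x hxb
  · intro τ hτ
    have h1 := h.sb1 (3 * (L * (1 / 2) ^ k)) (by positivity) τ ⟨by linarith [hτ.1], hτ.2⟩
    rw [← hm] at h1
    refine le_trans (lintegral_mono_set ?_) h1
    have := ball_slb (x := Function.update x c y) (R := 3 * (L * (1 / 2) ^ k)) c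
    rwa [hx0] at this
  · rw [hrν]
    linarith [ht.1]
  · linarith [ht.2]
  · refine le_trans (lintegral_mono_set Ioo_subset_Ioc_self) ?_
    refine (hk _ hx0 ((t + T) / 2) ⟨by linarith [ht.1], by linarith [ht.2]⟩).trans (le_of_eq ?_)
    congr 1
    ring
  · constructor
    · linarith [ht.1]
    · linarith [ht.2]

end

end Pool.Agent.H305.PL
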