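import Pool.Agent.H305.PL.Leb

/-!
The dissipation in small cylinders is small.
-/

set_option autoImplicit false

open MeasureTheory Set Metric Filter Topology
open scoped ContDiff ENNReal

namespace Pool.Agent.H305.PL

open H459R3.NS W221.NS Pool.Agent.V1183.PM Pool.Agent.H305.OS Pool.Agent.H305.SL

/-- The weighted dissipation. -/
noncomputable def wd (ν T : ℝ) (u : ℝ → V → V) (c : Fin 3) (y τ : ℝ) : ℝ≥0∞ :=
  ∫⁻ x, ENNReal.ofReal (gw (cw u τ) x) * ENNReal.ofReal (gk ν (T - τ) (x c - y))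

section
variable {c : Fin 3} {ν T : ℝ} {u : ℝ → V → V} {p : ℝ → V → ℝ} {t₀ y A : ℝ}

lemma PY.tail (h : PY ν T u p c t₀ y A) {κ : ℝ} (hκ : 0 < κ) :
    ∀ᶠ k : ℕ in atTop, ((1 : ℝ) / 4) ^ k < T - t₀ ∧
      ∫⁻ τ in Ioo (T - (1 / 4) ^ k) T, wd ν T u c y τ < ENNReal.ofReal κ := by
  obtain ⟨B, hB⟩ := h.vx
  have h1 : ∫⁻ τ, wd ν T u c y τ ∂(volume.restrict (Ioo t₀ T)) ≠ (⊤ : ℝ≥0∞) :=
    (hB.trans_lt ENNReal.ofReal_lt_top).ne
  have hS : Tendsto ((volume.restrict (Ioo t₀ T)) ∘ fun k : ℕ => Ioo (T - (1 / 4) ^ k) T) atTop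
      (𝓝 0) := by
    have h2 : Tendsto (fun k : ℕ => ENNReal.ofReal (((1 : ℝ) / 4) ^ k)) atTop (𝓝 0) := by
      rw [← ENNReal.ofReal_zero]
      exact (ENNReal.continuous_ofReal.tendsto 0).comp
        (tendsto_pow_atTop_nhds_zero_of_lt_one (by norm_num) (by norm_num))
    refine tendsto_of_tendsto_of_tendsto_of_le_of_le tendsto_const_nhds h2 (fun _ => zero_le) ?_
    intro k
    simp only [Function.comp]
    refine (Measure.restrict_le_self _).trans ?_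
    rw [Real.volume_Ioo]
    apply ENNReal.ofReal_le_ofReal
    linarith
  have h3 := tendsto_setLIntegral_zero h1 hS
  have h4 : ∀ᶠ k : ℕ in atTop, ∫⁻ τ in Ioo (T - (1 / 4) ^ k) T, wd ν T u c y τ
      ∂(volume.restrict (Ioo t₀ T)) < ENNReal.ofReal κ :=
    (tendsto_order.1 h3).2 _ (by simpa using hκ)
  have h5 : ∀ᶠ k : ℕ in atTop, ((1 : ℝ) / 4) ^ k < T - t₀ :=
    (tendsto_order.1 (tendsto_pow_atTop_nhds_zero_of_lt_one (by norm_num : (0 : ℝ) ≤ 1 / 4)
      (by norm_num))).2 _ (by linarith [h.tT])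
  filter_upwards [h4, h5] with k hk4 hk5
  refine ⟨hk5, ?_⟩
  rwa [Measure.restrict_restrict measurableSet_Ioo, inter_eq_self_of_subset_left
    (Ioo_subset_Ioo_left (by linarith))] at hk4

/-- The lower bound for the weight. -/
lemma sG_wd {r M ε τ : ℝ} (hν : 0 < ν) (hr : 0 < r) (hε : 0 < ε) (h1 : T - r ^ 2 ≤ τ)
    (h2 : τ ≤ T - ε * r ^ 2) :
    sG (cw u τ) c y (M * r) ≤ ENNReal.ofReal (r * Real.exp (M ^ 2 / (4 * ν * ε))) * wd ν T u c y τ := by
  have hE := Real.exp_pos (M ^ 2 / (4 * ν * ε))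
  have hεr : 0 < ε * r ^ 2 := by positivity
  have hT0 : 0 < T - τ := by linarith
  have e1 : ∀ x ∈ slb c y (M * r), 1 ≤ r * Real.exp (M ^ 2 / (4 * ν * ε)) * gk ν (T - τ) (x c - y) := by
    intro x hx
    have hs0 : 0 < √(T - τ) := Real.sqrt_pos.2 hT0
    have hs1 : √(T - τ) ≤ r := by
      rw [Real.sqrt_le_left hr.le]
      linarith
    have hz : (x c - y) ^ 2 ≤ M ^ 2 * r ^ 2 := by
      rw [← sq_abs, ← mul_pow]
      exact pow_le_pow_left₀ (abs_nonneg _) (le_of_lt hx) 2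
    have h3 : r⁻¹ * Real.exp (-(M ^ 2 / (4 * ν * ε))) ≤ gk ν (T - τ) (x c - y) := by
      unfold gk
      refine mul_le_mul (inv_anti₀ hs0 hs1) (Real.exp_le_exp.2 ?_) (Real.exp_pos _).le (by positivity)
      rw [neg_mul, neg_le_neg_iff, one_div_mul_eq_div, div_le_div_iff₀ (by positivity) (by positivity)]
      calc (x c - y) ^ 2 * (4 * ν * ε) ≤ M ^ 2 * r ^ 2 * (4 * ν * ε) :=
            mul_le_mul_of_nonneg_right hz (by positivity)
        _ = M ^ 2 * (4 * ν) * (ε * r ^ 2) := by ring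
        _ ≤ M ^ 2 * (4 * ν) * (T - τ) := mul_le_mul_of_nonneg_left (by linarith) (by positivity)
        _ = _ := by ring
    calc (1 : ℝ) = r * Real.exp (M ^ 2 / (4 * ν * ε)) * (r⁻¹ * Real.exp (-(M ^ 2 / (4 * ν * ε)))) := by
          rw [Real.exp_neg]
          field_simp
      _ ≤ _ := mul_le_mul_of_nonneg_left h3 (by positivity)
  unfold sG wd
  rw [← lintegral_const_mul' _ _ ENNReal.ofReal_ne_top]
  refine le_trans ?_ (setLIntegral_le_lintegral (slb c y (M * r)) _)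
  refine setLIntegral_mono' slb_meas fun x hx => ?_
  calc ENNReal.ofReal (gw (cw u τ) x) = ENNReal.ofReal (gw (cw u τ) x) * 1 := (mul_one _).symm
    _ ≤ ENNReal.ofReal (gw (cw u τ) x)
        * ENNReal.ofReal (r * Real.exp (M ^ 2 / (4 * ν * ε)) * gk ν (T - τ) (x c - y)) := by
        refine mul_le_mul_right ?_ _
        rw [← ENNReal.ofReal_one]
        exact ENNReal.ofReal_le_ofReal (e1 x hx)
    _ = _ := by
        rw [ENNReal.ofReal_mul (by positivity)]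
        ring

/-- Good times. -/
lemma PY.good (h : PY ν T u p c t₀ y A) {M η : ℝ} (hη : 0 < η) :
    ∀ᶠ k : ℕ in atTop, ∃ t₁ ∈ Ioo (T - (1 / 4) ^ k) (T - (1 / 4) ^ k / 4),
      sG (cw u t₁) c y (M * (1 / 2) ^ k) ≤ ENNReal.ofReal (η / (1 / 2) ^ k) := by
  have hν := h.hν
  have hE := Real.exp_pos (M ^ 2 / (4 * ν * (1 / 4)))
  have hκ : 0 < η / Real.exp (M ^ 2 / (4 * ν * (1 / 4))) / 2 := by positivity
  filter_upwards [h.tail hκ] with k hk
  obtain ⟨hk5, hk4⟩ := hk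
  obtain ⟨r, hr⟩ : ∃ r : ℝ, r = (1 / 2) ^ k := ⟨_, rfl⟩
  have hr0 : 0 < r := by rw [hr]; positivity
  rw [pow4, ← hr] at hk4 hk5 ⊢
  by_contra hcon
  push Not at hcon
  have h6 : ∀ τ ∈ Ioo (T - r ^ 2) (T - r ^ 2 / 4),
      ENNReal.ofReal (η / r ^ 2 / Real.exp (M ^ 2 / (4 * ν * (1 / 4)))) ≤ wd ν T u c y τ := by
    intro τ hτ
    have e1 := (hcon τ hτ).le.trans (sG_wd (T := T) (u := u) (c := c) (y := y) (M := M) hν hr0
      (by norm_num : (0 : ℝ) < 1 / 4) hτ.1.le (by linarith [hτ.2]))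
    calc ENNReal.ofReal (η / r ^ 2 / Real.exp (M ^ 2 / (4 * ν * (1 / 4))))
        = ENNReal.ofReal ((r * Real.exp (M ^ 2 / (4 * ν * (1 / 4))))⁻¹) * ENNReal.ofReal (η / r) := by
          rw [← ENNReal.ofReal_mul (by positivity)]
          congr 1
          field_simp
      _ ≤ ENNReal.ofReal ((r * Real.exp (M ^ 2 / (4 * ν * (1 / 4))))⁻¹)
          * (ENNReal.ofReal (r * Real.exp (M ^ 2 / (4 * ν * (1 / 4)))) * wd ν T u c y τ) :=
          mul_le_mul_right e1 _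
      _ = wd ν T u c y τ := by
          rw [← mul_assoc, ← ENNReal.ofReal_mul (by positivity), inv_mul_cancel₀ (by positivity),
            ENNReal.ofReal_one, one_mul]
  have h7 : ENNReal.ofReal (η / r ^ 2 / Real.exp (M ^ 2 / (4 * ν * (1 / 4))))
      * ENNReal.ofReal (3 / 4 * r ^ 2) < ENNReal.ofReal (η / Real.exp (M ^ 2 / (4 * ν * (1 / 4))) / 2) := by
    refine lt_of_le_of_lt ?_ hk4
    refine le_trans ?_ (lintegral_mono_set (Ioo_subset_Ioo_right (by nlinarith : T - r ^ 2 / 4 ≤ T)))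
    refine le_trans ?_ (setLIntegral_mono' measurableSet_Ioo h6)
    rw [setLIntegral_const, Real.volume_Ioo]
    refine mul_le_mul_right (ENNReal.ofReal_le_ofReal ?_) _
    linarith
  rw [← ENNReal.ofReal_mul (by positivity), ENNReal.ofReal_lt_ofReal_iff hκ] at h7
  have e3 : η / r ^ 2 / Real.exp (M ^ 2 / (4 * ν * (1 / 4))) * (3 / 4 * r ^ 2)
      = 3 / 4 * (η / Real.exp (M ^ 2 / (4 * ν * (1 / 4)))) := by
    field_simp
  rw [e3] at h7
  have : 0 < η / Real.exp (M ^ 2 / (4 * ν * (1 / 4))) := by positivity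
  linarith

/-- The local energy from the dissipation in the slab. -/
lemma eB_sG {v : Fin 3 → V → ℝ} {x₀ : V} {ρ e : ℝ} (hv : ∀ i, HF (v i)) (hρ : 0 < ρ)
    (hx : x₀ c = y) (he : 0 ≤ e) (h1 : sE v c y (2 * ρ) ≤ ENNReal.ofReal e) :
    eB v x₀ ρ ≤ ENNReal.ofReal (24 * ρ * √e) * sG v c y (2 * ρ) ^ (1 / 2 : ℝ) := by
  obtain ⟨a, b, hT⟩ := SL.exists_tri c
  have hfin : sG v c y (2 * ρ) ≠ (⊤ : ℝ≥0∞) := by
    refine ne_top_of_le_ne_top ?_ (setLIntegral_le_lintegral _ _)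
    exact (gw_int hv).lintegral_lt_top.ne
  obtain ⟨d, hd⟩ : ∃ d : ℝ, d = (sG v c y (2 * ρ)).toReal := ⟨_, rfl⟩
  have hd0 : 0 ≤ d := by rw [hd]; exact ENNReal.toReal_nonneg
  have hde : sG v c y (2 * ρ) = ENNReal.ofReal d := by rw [hd, ENNReal.ofReal_toReal hfin]
  have h2 := loc_en (x₀ := x₀) hv hT hρ hρ he hd0 h1 hde.le
  have e1 : ENNReal.ofReal (24 * ρ * √(e * d))
      = ENNReal.ofReal (24 * ρ * √e) * sG v c y (2 * ρ) ^ (1 / 2 : ℝ) := by
    rw [hde, ENNReal.ofReal_rpow_of_nonneg hd0 (by norm_num), ← ENNReal.ofReal_mul (by positivity),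
      ← Real.sqrt_eq_rpow, Real.sqrt_mul he]
    congr 1
    ring
  rw [← e1]
  refine le_trans ?_ h2
  unfold eB
  rw [← lintegral_indicator measurableSet_ball, ← lintegral_indicator slb_meas]
  refine lintegral_mono fun x => ?_
  by_cases hxb : x ∈ ball x₀ ρ
  · rw [indicator_of_mem hxb, indicator_of_mem (ball_sub hx hxb),
      hc_one hρ (coord_ball hxb a) (coord_ball hxb b), ENNReal.ofReal_one, mul_one]
  · rw [indicator_of_notMem hxb]
    exact zero_le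

/-- The dissipation in small cylinders is small. -/
theorem PY.small (h : PY ν T u p c t₀ y A) {L θ : ℝ} (hL : 1 ≤ L) (hθ : 0 < θ) :
    ∀ᶠ k : ℕ in atTop, t₀ ≤ T - (1 / 4) ^ k ∧ ∀ x₀ : V, x₀ c = y → ∀ s ∈ Ico (T - (1 / 4) ^ k / 4) T,
      ∫⁻ τ in Ioc (T - (1 / 4) ^ k / 4) s, ∫⁻ x in ball x₀ (L * (1 / 2) ^ k),
        ENNReal.ofReal (gw (cw u τ) x) ≤ ENNReal.ofReal (θ * (1 / 2) ^ k) := by
  obtain ⟨Cb, hCb, hLEB⟩ := LEB
  have hν := h.hν
  have hA := h.A0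
  have hL0 : 0 < L := by linarith
  obtain ⟨D, hD⟩ : ∃ D : ℝ, D = Cb * (1 + ν) * (1 + A) ^ 2 * L := ⟨_, rfl⟩
  have hD0 : 0 ≤ D := by rw [hD]; positivity
  obtain ⟨q, hq⟩ : ∃ q : ℝ, q = min 1 (ν * θ / 2 / (D + 1)) := ⟨_, rfl⟩
  have hq0 : 0 < q := by rw [hq]; positivity
  have hq1 : q ≤ 1 := by rw [hq]; exact min_le_left _ _
  have hqD : D * q ≤ ν * θ / 2 := by
    have h1 : q ≤ ν * θ / 2 / (D + 1) := by rw [hq]; exact min_le_right _ _
    rw [le_div_iff₀ (by linarith)] at h1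
    nlinarith
  obtain ⟨η, hη⟩ : ∃ η : ℝ, η = q ^ 12 := ⟨_, rfl⟩
  have hη0 : 0 < η := by rw [hη]; positivity
  have hη1 : η ≤ 1 := by rw [hη]; exact pow_le_one₀ hq0.le hq1
  have hη12 : η ^ (1 / 12 : ℝ) = q := by
    rw [hη, ← Real.rpow_natCast, ← Real.rpow_mul hq0.le]
    norm_num
  obtain ⟨ε, hε⟩ : ∃ ε : ℝ, ε = min (1 / 4) (η / (A + 1)) := ⟨_, rfl⟩
  have hε0 : 0 < ε := by rw [hε]; positivity
  have hεA : ε * A ≤ η := by
    have h1 : ε ≤ η / (A + 1) := by rw [hε]; exact min_le_right _ _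
    rw [le_div_iff₀ (by linarith)] at h1
    nlinarith
  obtain ⟨X, hX⟩ : ∃ X : ℝ, X = Real.exp ((6 * L) ^ 2 / (4 * ν * ε)) := ⟨_, rfl⟩
  have hX0 : 0 < X := by rw [hX]; exact Real.exp_pos _
  obtain ⟨K, hK⟩ : ∃ K : ℝ, K = 72 * L * √(6 * A * L) := ⟨_, rfl⟩
  have hK0 : 0 ≤ K := by rw [hK]; positivity
  obtain ⟨κ, hκ⟩ : ∃ κ : ℝ, κ = (η * L ^ 3 * (27 / 2) / (K + 1)) ^ 2 / X := ⟨_, rfl⟩
  have hκ0 : 0 < κ := by rw [hκ]; positivity
  have hKκ : K * √(X * κ) ≤ η * L ^ 3 * (27 / 2) := by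
    have e1 : X * κ = (η * L ^ 3 * (27 / 2) / (K + 1)) ^ 2 := by
      rw [hκ]
      field_simp
    rw [e1, Real.sqrt_sq (by positivity), ← mul_div_assoc, div_le_iff₀ (by positivity)]
    have : 0 ≤ η * L ^ 3 * (27 / 2) := by positivity
    nlinarith
  obtain ⟨η₂, hη₂⟩ : ∃ η₂ : ℝ, η₂ = (ν * θ / 2 / (K + 1)) ^ 2 := ⟨_, rfl⟩
  have hη₂0 : 0 < η₂ := by rw [hη₂]; positivity
  have hKη₂ : K * √η₂ ≤ ν * θ / 2 := by
    rw [hη₂, Real.sqrt_sq (by positivity), ← mul_div_assoc, div_le_iff₀ (by positivity)]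
    have : 0 ≤ ν * θ / 2 := by positivity
    nlinarith
  filter_upwards [h.tail hκ0, h.good (M := 6 * L) hη₂0] with k hk1 hk2
  obtain ⟨hk5, hk4⟩ := hk1
  obtain ⟨t₁, ht₁, hg⟩ := hk2
  obtain ⟨r, hr⟩ : ∃ r : ℝ, r = (1 / 2) ^ k := ⟨_, rfl⟩
  have hr0 : 0 < r := by rw [hr]; positivity
  rw [pow4, ← hr] at hk4 hk5 ht₁ ⊢
  rw [← hr] at hg
  refine ⟨by linarith, ?_⟩
  intro x₀ hx₀ s hs
  obtain ⟨ρ, hρ⟩ : ∃ ρ : ℝ, ρ = L * r := ⟨_, rfl⟩
  have hρ0 : 0 < ρ := by rw [hρ]; positivity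
  have hρr : r ≤ ρ := by rw [hρ]; nlinarith
  rw [← hρ]
  have hr2 : 0 < r ^ 2 := by positivity
  have ht₀t₁ : t₀ ≤ t₁ := by linarith [ht₁.1]
  have ht₁s : t₁ ≤ s := by linarith [ht₁.2, hs.1]
  have hst : s - t₁ ≤ ρ ^ 2 := by
    have : r ^ 2 ≤ ρ ^ 2 := pow_le_pow_left₀ hr0.le hρr 2
    linarith [ht₁.1, hs.2]
  have e6 : 2 * (3 * ρ) = 6 * L * r := by rw [hρ]; ring
  have heB : ∀ τ ∈ Ico t₀ T, eB (cw u τ) x₀ (3 * ρ)
      ≤ ENNReal.ofReal (24 * (3 * ρ) * √(A * (6 * L * r)))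
        * sG (cw u τ) c y (6 * L * r) ^ (1 / 2 : ℝ) := by
    intro τ hτ
    have h1 := eB_sG (c := c) (y := y) (v := cw u τ) (x₀ := x₀) (ρ := 3 * ρ)
      (e := A * (6 * L * r)) (fun i => h.cw_HF ⟨h.t0.trans_le hτ.1, hτ.2⟩ i) (by linarith) hx₀
      (by positivity) (by rw [e6]; exact h.sb1 _ (by positivity) τ hτ)
    rwa [e6] at h1
  have hKe : 24 * (3 * ρ) * √(A * (6 * L * r)) = K * (r * √r) := by
    rw [hK, hρ, show A * (6 * L * r) = 6 * A * L * r by ring, Real.sqrt_mul (by positivity)]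
    ring
  have hsr : √r * √r = r := Real.mul_self_sqrt hr0.le
  have hsr0 : 0 < √r := Real.sqrt_pos.2 hr0
  -- the local energy
  have hY : ∫⁻ τ in Ioc t₁ s, eB (cw u τ) x₀ (3 * ρ) ≤ ENNReal.ofReal (η * (3 * ρ) ^ 3) := by
    have hsub : Ioc t₁ s ⊆ Ioc (T - r ^ 2) (T - ε * r ^ 2) ∪ Ioc (T - ε * r ^ 2) s := by
      intro τ hτ
      rcases le_or_gt τ (T - ε * r ^ 2) with h1 | h1
      · exact Or.inl ⟨ht₁.1.trans hτ.1, h1⟩
      · exact Or.inr ⟨h1, hτ.2⟩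
    have hε14 : ε ≤ 1 / 4 := by rw [hε]; exact min_le_left _ _
    have hT1 : T - ε * r ^ 2 < T := by
      have : 0 < ε * r ^ 2 := by positivity
      linarith
    have hIA : Ioc (T - r ^ 2) (T - ε * r ^ 2) ⊆ Ioo 0 T := fun τ hτ =>
      ⟨by linarith [hτ.1, h.t0], hτ.2.trans_lt hT1⟩
    have hA1 : ∫⁻ τ in Ioc (T - r ^ 2) (T - ε * r ^ 2), eB (cw u τ) x₀ (3 * ρ)
        ≤ ENNReal.ofReal (η * (27 / 2) * ρ ^ 3) := by
      have m1 : AEMeasurable (fun τ => sG (cw u τ) c y (6 * L * r))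
          (volume.restrict (Ioc (T - r ^ 2) (T - ε * r ^ 2))) :=
        HS.m_sG h.toHS c y _ measurableSet_Ioc hIA
      calc ∫⁻ τ in Ioc (T - r ^ 2) (T - ε * r ^ 2), eB (cw u τ) x₀ (3 * ρ)
          ≤ ∫⁻ τ in Ioc (T - r ^ 2) (T - ε * r ^ 2),
            ENNReal.ofReal (24 * (3 * ρ) * √(A * (6 * L * r)))
              * sG (cw u τ) c y (6 * L * r) ^ (1 / 2 : ℝ) :=
            setLIntegral_mono' measurableSet_Ioc fun τ hτ =>
              heB τ ⟨by linarith [hτ.1], hτ.2.trans_lt hT1⟩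
        _ = ENNReal.ofReal (24 * (3 * ρ) * √(A * (6 * L * r)))
            * ∫⁻ τ in Ioc (T - r ^ 2) (T - ε * r ^ 2), sG (cw u τ) c y (6 * L * r) ^ (1 / 2 : ℝ) :=
            lintegral_const_mul' _ _ ENNReal.ofReal_ne_top
        _ ≤ ENNReal.ofReal (24 * (3 * ρ) * √(A * (6 * L * r)))
            * ((∫⁻ τ in Ioc (T - r ^ 2) (T - ε * r ^ 2), sG (cw u τ) c y (6 * L * r)) ^ (1 / 2 : ℝ)
              * volume (Ioc (T - r ^ 2) (T - ε * r ^ 2)) ^ (1 - 1 / 2 : ℝ)) :=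
            mul_le_mul_right (jen m1 (by norm_num) (by norm_num)) _
        _ ≤ ENNReal.ofReal (24 * (3 * ρ) * √(A * (6 * L * r)))
            * (ENNReal.ofReal (r * X * κ) ^ (1 / 2 : ℝ) * ENNReal.ofReal (r ^ 2) ^ (1 / 2 : ℝ)) := by
            refine mul_le_mul_right (mul_le_mul' (ENNReal.rpow_le_rpow ?_ (by norm_num)) ?_) _
            · calc ∫⁻ τ in Ioc (T - r ^ 2) (T - ε * r ^ 2), sG (cw u τ) c y (6 * L * r)
                  ≤ ∫⁻ τ in Ioc (T - r ^ 2) (T - ε * r ^ 2),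
                    ENNReal.ofReal (r * X) * wd ν T u c y τ := by
                    refine setLIntegral_mono' measurableSet_Ioc fun τ hτ => ?_
                    rw [hX]
                    exact sG_wd hν hr0 hε0 hτ.1.le hτ.2
                _ = ENNReal.ofReal (r * X) * ∫⁻ τ in Ioc (T - r ^ 2) (T - ε * r ^ 2), wd ν T u c y τ :=
                    lintegral_const_mul' _ _ ENNReal.ofReal_ne_top
                _ ≤ ENNReal.ofReal (r * X) * ENNReal.ofReal κ := by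
                    refine mul_le_mul_right (le_trans (lintegral_mono_set ?_) hk4.le) _
                    exact fun τ hτ => ⟨hτ.1, hτ.2.trans_lt hT1⟩
                _ = _ := by rw [← ENNReal.ofReal_mul (by positivity)]
            · rw [show (1 - 1 / 2 : ℝ) = 1 / 2 by norm_num]
              refine ENNReal.rpow_le_rpow ?_ (by norm_num)
              rw [Real.volume_Ioc]
              apply ENNReal.ofReal_le_ofReal
              have : 0 < ε * r ^ 2 := by positivity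
              linarith
        _ ≤ _ := by
            rw [hKe, ENNReal.ofReal_rpow_of_nonneg (by positivity) (by norm_num),
              ENNReal.ofReal_rpow_of_nonneg (by positivity) (by norm_num), ← Real.sqrt_eq_rpow,
              ← Real.sqrt_eq_rpow, Real.sqrt_sq hr0.le, ← ENNReal.ofReal_mul (by positivity),
              ← ENNReal.ofReal_mul (by positivity)]
            apply ENNReal.ofReal_le_ofReal
            rw [show r * X * κ = r * (X * κ) by ring, Real.sqrt_mul hr0.le]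
            calc K * (r * √r) * (√r * √(X * κ) * r) = (K * √(X * κ)) * (√r * √r * r * r) := by ring
              _ = (K * √(X * κ)) * r ^ 3 := by rw [hsr]; ring
              _ ≤ η * L ^ 3 * (27 / 2) * r ^ 3 := mul_le_mul_of_nonneg_right hKκ (by positivity)
              _ = _ := by rw [hρ]; ring
    have hA2 : ∫⁻ τ in Ioc (T - ε * r ^ 2) s, eB (cw u τ) x₀ (3 * ρ)
        ≤ ENNReal.ofReal (η * (27 / 2) * ρ ^ 3) := by
      calc ∫⁻ τ in Ioc (T - ε * r ^ 2) s, eB (cw u τ) x₀ (3 * ρ)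
          ≤ ∫⁻ _τ in Ioc (T - ε * r ^ 2) s, ENNReal.ofReal (A * (3 * ρ)) := by
            refine setLIntegral_mono' measurableSet_Ioc fun τ hτ => ?_
            have hτ1 : τ ∈ Ico t₀ T := by
              constructor
              · have : ε * r ^ 2 ≤ 1 / 4 * r ^ 2 := mul_le_mul_of_nonneg_right hε14 hr2.le
                linarith [hτ.1]
              · exact hτ.2.trans_lt hs.2
            exact (lintegral_mono_set (ball_sub hx₀)).trans (h.sb1 (3 * ρ) (by linarith) τ hτ1)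
        _ = ENNReal.ofReal (A * (3 * ρ)) * ENNReal.ofReal (s - (T - ε * r ^ 2)) := by
            rw [setLIntegral_const, Real.volume_Ioc]
        _ ≤ ENNReal.ofReal (A * (3 * ρ)) * ENNReal.ofReal (ε * r ^ 2) := by
            refine mul_le_mul_right (ENNReal.ofReal_le_ofReal ?_) _
            linarith [hs.2]
        _ ≤ _ := by
            rw [← ENNReal.ofReal_mul (by positivity)]
            apply ENNReal.ofReal_le_ofReal
            calc A * (3 * ρ) * (ε * r ^ 2) = 3 * (ε * A) * ρ * r ^ 2 := by ring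
              _ ≤ 3 * η * ρ * ρ ^ 2 := by
                  have b1 : r ^ 2 ≤ ρ ^ 2 := pow_le_pow_left₀ hr0.le hρr 2
                  have b2 : 3 * (ε * A) * ρ ≤ 3 * η * ρ :=
                    mul_le_mul_of_nonneg_right (by linarith) hρ0.le
                  exact mul_le_mul b2 b1 hr2.le (by positivity)
              _ ≤ η * (27 / 2) * ρ ^ 3 := by
                  have : 0 ≤ η * ρ ^ 3 := by positivity
                  nlinarith
    calc ∫⁻ τ in Ioc t₁ s, eB (cw u τ) x₀ (3 * ρ)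
        ≤ ∫⁻ τ in Ioc (T - r ^ 2) (T - ε * r ^ 2) ∪ Ioc (T - ε * r ^ 2) s, eB (cw u τ) x₀ (3 * ρ) :=
          lintegral_mono_set hsub
      _ ≤ _ := lintegral_union_le _ _ _
      _ ≤ ENNReal.ofReal (η * (27 / 2) * ρ ^ 3) + ENNReal.ofReal (η * (27 / 2) * ρ ^ 3) :=
          add_le_add hA1 hA2
      _ = _ := by
          rw [← ENNReal.ofReal_add (by positivity) (by positivity)]
          congr 1
          ring
  -- the good time
  have hE1 : eB (cw u t₁) x₀ (3 * ρ) ≤ ENNReal.ofReal (ν * θ / 2 * r) := by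
    refine (heB t₁ ⟨ht₀t₁, by linarith [ht₁.2]⟩).trans ?_
    calc ENNReal.ofReal (24 * (3 * ρ) * √(A * (6 * L * r)))
          * sG (cw u t₁) c y (6 * L * r) ^ (1 / 2 : ℝ)
        ≤ ENNReal.ofReal (24 * (3 * ρ) * √(A * (6 * L * r)))
          * ENNReal.ofReal (η₂ / r) ^ (1 / 2 : ℝ) :=
          mul_le_mul_right (ENNReal.rpow_le_rpow hg (by norm_num)) _
      _ ≤ _ := by
          rw [hKe, ENNReal.ofReal_rpow_of_nonneg (by positivity) (by norm_num),
            ← Real.sqrt_eq_rpow, ← ENNReal.ofReal_mul (by positivity)]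
          apply ENNReal.ofReal_le_ofReal
          rw [Real.sqrt_div hη₂0.le]
          calc K * (r * √r) * (√η₂ / √r) = K * √η₂ * r := by field_simp
            _ ≤ ν * θ / 2 * r := mul_le_mul_of_nonneg_right hKη₂ hr0.le
  have hfin := hLEB c ν T u p t₀ y A h x₀ ρ t₁ s η hx₀ hρ0 ht₀t₁ ht₁s hs.2 hst hη0.le hη1 hY
  have hfin2 : ENNReal.ofReal ν * ∫⁻ τ in Ioc t₁ s, ∫⁻ x in ball x₀ ρ, ENNReal.ofReal (gw (cw u τ) x)
      ≤ ENNReal.ofReal (ν * (θ * r)) := by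
    refine hfin.trans ((add_le_add hE1 le_rfl).trans ?_)
    rw [← ENNReal.ofReal_add (by positivity) (by positivity)]
    apply ENNReal.ofReal_le_ofReal
    rw [hη12]
    have : Cb * (1 + ν) * (1 + A) ^ 2 * q * ρ = D * q * r := by
      rw [hD, hρ]
      ring
    rw [this]
    nlinarith [mul_le_mul_of_nonneg_right hqD hr0.le]
  refine le_trans (lintegral_mono_set (Ioc_subset_Ioc_left ht₁.2.le)) ?_
  refine (ofReal_cancel hν hfin2).trans (le_of_eq ?_)
  congr 1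
  field_simp

end

end Pool.Agent.H305.PL
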