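import Pool.Agent.H305.PL.Wkd

/-!
Energy bounds from the condition on the inflow into the slabs around one plane.
-/

set_option autoImplicit false

open MeasureTheory Set Metric Filter Topology
open scoped ContDiff ENNReal

namespace Pool.Agent.H305.PL

open H459R3.NS W221.NS Pool.Agent.V1183.PM Pool.Agent.H305.OS Pool.Agent.H305.SL

/-- The condition on the inflow at one time. -/
def InF (ν δ : ℝ) (c : Fin 3) (y : ℝ) (w : Fin 3 → V → ℝ) (q : V → ℝ) (M : ℝ) : Prop :=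
  ∀ ρ : ℝ, 0 < ρ → -(∫ x in slb c y ρ, wk w q x)
    ≤ (1 - δ) * (ν * ∫ x in slb c y ρ, gw w x) + M * ρ

section
variable {ν T T' δ t₁ s y : ℝ} {c : Fin 3} {u : ℝ → V → V} {p : ℝ → V → ℝ} {m : ℝ → ℝ}

lemma flW_InF {τ M : ℝ} {w : Fin 3 → V → ℝ} {q : V → ℝ} (hν : 0 < ν) (hτ : τ < T')
    (hw : ∀ i, HF (w i)) (hdiv : ∀ x, ∑ i, H459R3.NS.pd i (w i) x = 0) (hq : HF q)
    (h : InF ν δ c y w q M) :
    flW w q (wg (fun _ => 1) ν c T' y τ) ≤ 2 * ((1 - δ) * (ν * dsW w (wg (fun _ => 1) ν c T' y τ)))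
      + 2 * √(Real.pi * ν) * M := by
  have hΦ : BF (wg (fun _ => 1) ν c T' y τ) := wg_BF BF_one hν hτ
  have e0 : ∀ x, wg (fun _ => 1) ν c T' y τ x = gk ν (T' - τ) (x c - y) := by
    intro x
    unfold wg
    rw [one_mul]
    rfl
  rw [flW_wk hw hdiv hq hΦ]
  obtain ⟨J, hJ⟩ : ∃ J : V → ℝ, J = fun x => -wk w q x - (1 - δ) * ν * gw w x := ⟨_, rfl⟩
  have i1 := wk_int hw hq
  have i2 := gw_int hw
  have iJ : Integrable J := by
    rw [hJ]
    exact i1.neg.sub (i2.const_mul _)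
  have hc : ∀ ρ : ℝ, 0 < ρ → ∫ x in slb c y ρ, J x ≤ M * ρ := by
    intro ρ hρ
    have h1 := h ρ hρ
    have e1 : ∫ x in slb c y ρ, J x = -(∫ x in slb c y ρ, wk w q x)
        - (1 - δ) * ν * ∫ x in slb c y ρ, gw w x := by
      have a1 : Integrable (fun x => -wk w q x) (volume.restrict (slb c y ρ)) :=
        i1.neg.integrableOn
      rw [hJ]
      simp only
      rw [integral_sub a1 (i2.const_mul _).integrableOn, integral_const_mul, integral_neg]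
    rw [e1]
    linarith
  have h2 := cake (c := c) (y := y) hν (sub_pos.2 hτ) iJ hc
  have iwΦ : Integrable fun x => wk w q x * wg (fun _ => 1) ν c T' y τ x := by
    unfold wk
    simp only [Finset.sum_mul, add_mul]
    refine integrable_finsetSum _ fun i _ => Integrable.add ?_ ?_
    · exact ((nl_HF hw i).ip_int (SL.HF.mulB (hw i) hΦ)).congr
        (Eventually.of_forall fun x => by simp only; ring)
    · exact ((hq.pd i).ip_int (SL.HF.mulB (hw i) hΦ)).congr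
        (Eventually.of_forall fun x => by simp only; ring)
  have igΦ : Integrable fun x => gw w x * wg (fun _ => 1) ν c T' y τ x := by
    unfold gw
    simp only [Finset.sum_mul]
    exact integrable_finsetSum _ fun i _ => integrable_finsetSum _ fun k _ => sqB_int ((hw i).pd k) hΦ
  have e2 : ∫ x, J x * gk ν (T' - τ) (x c - y) = -(∫ x, wk w q x * wg (fun _ => 1) ν c T' y τ x)
      - (1 - δ) * ν * dsW w (wg (fun _ => 1) ν c T' y τ) := by
    have e3 : (fun x => J x * gk ν (T' - τ) (x c - y)) = fun x =>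
        -(wk w q x * wg (fun _ => 1) ν c T' y τ x)
          - (1 - δ) * ν * (gw w x * wg (fun _ => 1) ν c T' y τ x) := by
      funext x
      rw [hJ, e0]
      simp only
      ring
    have a1 : Integrable (fun x => -(wk w q x * wg (fun _ => 1) ν c T' y τ x)) := iwΦ.neg
    rw [e3, integral_sub a1 (igΦ.const_mul _), integral_neg, integral_const_mul]
    rfl
  rw [e2] at h2
  linarith

/-- The energy inequality. -/
lemma en_pl (h : HS ν T u p) (ht₁ : 0 < t₁) (hts : t₁ ≤ s) (hs : s < T) (hT' : s < T')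
    (hm : IntegrableOn m (Ioc t₁ s))
    (hin : ∀ᵐ τ ∂(volume.restrict (Ioc t₁ s)), InF ν δ c y (cw u τ) (p τ) (m τ)) :
    IntegrableOn (fun τ => ν * dsW (cw u τ) (wg (fun _ => 1) ν c T' y τ)) (Ioc t₁ s) ∧
    enW (cw u s) (wg (fun _ => 1) ν c T' y s)
      + 2 * δ * ∫ τ in Ioc t₁ s, ν * dsW (cw u τ) (wg (fun _ => 1) ν c T' y τ)
      ≤ enW (cw u t₁) (wg (fun _ => 1) ν c T' y t₁)
        + 2 * √(Real.pi * ν) * ∫ τ in Ioc t₁ s, |m τ| := by
  have hν := h.hν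
  obtain ⟨i1, i2, e⟩ := gid (c := c) h ht₁ hts hs hT' BF_one (fun x => pd_one c x) y
  have e4 : ∀ τ, enW (cw u τ) (fun x => lp (fun _ : V => (1 : ℝ)) x * gW ν c T' y τ x) = 0 := by
    intro τ
    unfold enW
    simp only [lp_one, zero_mul, mul_zero, integral_zero]
  simp only [e4, mul_zero, add_zero] at i2 e
  refine ⟨i1, ?_⟩
  have hmono : ∫ τ in Ioc t₁ s, (flW (cw u τ) (p τ) (wg (fun _ => 1) ν c T' y τ)
        - 2 * (ν * dsW (cw u τ) (wg (fun _ => 1) ν c T' y τ)))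
      ≤ ∫ τ in Ioc t₁ s, (2 * √(Real.pi * ν) * |m τ|
        - 2 * δ * (ν * dsW (cw u τ) (wg (fun _ => 1) ν c T' y τ))) := by
    refine integral_mono_ae (i2.sub (i1.const_mul 2)) ((hm.abs.const_mul _).sub (i1.const_mul _)) ?_
    filter_upwards [hin, ae_restrict_mem measurableSet_Ioc] with τ h1 h2
    have hτ : τ ∈ Ioo 0 T := ⟨ht₁.trans h2.1, h2.2.trans_lt hs⟩
    have h3 := flW_InF (T' := T') (τ := τ) hν (h2.2.trans_lt hT') (fun i => h.cw_HF hτ i)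
      (h.div τ hτ) (h.p_HF hτ) h1
    have h4 : 2 * √(Real.pi * ν) * m τ ≤ 2 * √(Real.pi * ν) * |m τ| :=
      mul_le_mul_of_nonneg_left (le_abs_self _) (by positivity)
    linarith
  rw [integral_sub (hm.abs.const_mul _) (i1.const_mul _), integral_const_mul, integral_const_mul]
    at hmono
  linarith

/-- The bounds. -/
lemma pl_bd (h : HS ν T u p) {t₀ : ℝ} (ht₀ : 0 < t₀) (htT : t₀ < T) (hδ : 0 < δ)
    (hm : IntegrableOn m (Ioo t₀ T))
    (hin : ∀ᵐ τ ∂(volume.restrict (Ioo t₀ T)), InF ν δ c y (cw u τ) (p τ) (m τ)) :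
    ∃ R : ℝ, 0 ≤ R ∧ ∀ s ∈ Ico t₀ T, ∀ T' : ℝ, s < T' →
      (∫⁻ x, ENNReal.ofReal (nw (cw u s) x) * ENNReal.ofReal (gk ν (T' - s) (x c - y)))
        ≤ ENNReal.ofReal R ∧
      (∫⁻ τ in Ioc t₀ s, ∫⁻ x, ENNReal.ofReal (gw (cw u τ) x)
        * ENNReal.ofReal (gk ν (T' - τ) (x c - y))) ≤ ENNReal.ofReal R := by
  have hν := h.hν
  have hk := kap_pos ν
  have hZ := Zs_pos
  obtain ⟨m₀, hm₀, hm₁⟩ := slab0 (fun i => h.cw_HF ⟨ht₀, htT⟩ i) c
  obtain ⟨R₀, hR₀⟩ : ∃ R₀ : ℝ, R₀ = 3 * kap ν * Zs * m₀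
    + 2 * √(Real.pi * ν) * ∫ τ in Ioo t₀ T, |m τ| := ⟨_, rfl⟩
  have hm0 : 0 ≤ ∫ τ in Ioo t₀ T, |m τ| := integral_nonneg fun _ => abs_nonneg _
  have hR00 : 0 ≤ R₀ := by rw [hR₀]; positivity
  refine ⟨R₀ + R₀ / (2 * δ * ν), by positivity, ?_⟩
  intro s hs T' hT'
  have hI : ∀ τ ∈ Icc t₀ s, τ ∈ Ioo 0 T := fun τ hτ => ⟨ht₀.trans_le hτ.1, hτ.2.trans_lt hs.2⟩
  have hw : ∀ τ ∈ Icc t₀ s, ∀ i, HF (cw u τ i) := fun τ hτ i => h.cw_HF (hI τ hτ) i
  have hg : ∀ τ ∈ Icc t₀ s, BF (wg (fun _ => 1) ν c T' y τ) := fun τ hτ =>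
    wg_BF BF_one hν (hτ.2.trans_lt hT')
  have e0 : ∀ τ x, wg (fun _ => 1) ν c T' y τ x = gk ν (T' - τ) (x c - y) := by
    intro τ x
    unfold wg
    rw [one_mul]
    rfl
  have hg0 : ∀ τ x, 0 ≤ wg (fun _ => 1) ν c T' y τ x := fun τ x => by
    rw [e0]
    exact gk_nonneg _ _ _
  have hsub : Ioc t₀ s ⊆ Ioo t₀ T := fun τ hτ => ⟨hτ.1, hτ.2.trans_lt hs.2⟩
  obtain ⟨i1, key⟩ := en_pl (c := c) (y := y) (δ := δ) h ht₀ hs.1 hs.2 hT' (hm.mono_set hsub)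
    (ae_restrict_of_ae_restrict_of_subset hsub hin)
  have e1 : ∀ τ ∈ Icc t₀ s, ENNReal.ofReal (enW (cw u τ) (wg (fun _ => 1) ν c T' y τ))
      = ∫⁻ x, ENNReal.ofReal (nw (cw u τ) x) * ENNReal.ofReal (gk ν (T' - τ) (x c - y)) := by
    intro τ hτ
    rw [enW_lint (hw τ hτ) (hg τ hτ) (hg0 τ)]
    simp only [e0]
  have h1 : enW (cw u t₀) (wg (fun _ => 1) ν c T' y t₀) ≤ 3 * kap ν * Zs * m₀ := by
    rw [← ENNReal.ofReal_le_ofReal_iff (by positivity), e1 t₀ (left_mem_Icc.2 hs.1)]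
    have hT0 : 0 < T' - t₀ := by linarith [hs.1]
    exact gk_int (c := c) (y := y) hν hT0
      ((ENNReal.continuous_ofReal.comp (nw_cont fun i => h.cw_HF ⟨ht₀, htT⟩ i)).measurable) hm₀
      (fun y' => hm₁ y' _ (Real.sqrt_pos.2 hT0))
  have h2 : ∫ τ in Ioc t₀ s, |m τ| ≤ ∫ τ in Ioo t₀ T, |m τ| :=
    setIntegral_mono_set hm.abs (Eventually.of_forall fun _ => abs_nonneg _) hsub.eventuallyLE
  have h3 : 2 * √(Real.pi * ν) * ∫ τ in Ioc t₀ s, |m τ|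
      ≤ 2 * √(Real.pi * ν) * ∫ τ in Ioo t₀ T, |m τ| := mul_le_mul_of_nonneg_left h2 (by positivity)
  have hE : 0 ≤ enW (cw u s) (wg (fun _ => 1) ν c T' y s) := enW_nonneg (hg0 s)
  have hD : 0 ≤ ∫ τ in Ioc t₀ s, ν * dsW (cw u τ) (wg (fun _ => 1) ν c T' y τ) :=
    integral_nonneg fun τ => mul_nonneg hν.le (dsW_nonneg (hg0 τ))
  have hD2 : 0 ≤ 2 * δ * ∫ τ in Ioc t₀ s, ν * dsW (cw u τ) (wg (fun _ => 1) ν c T' y τ) := by
    positivity
  have hq : 0 ≤ R₀ / (2 * δ * ν) := by positivity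
  constructor
  · rw [← e1 s (right_mem_Icc.2 hs.1)]
    apply ENNReal.ofReal_le_ofReal
    linarith
  · have e2 : ∫⁻ τ in Ioc t₀ s, ∫⁻ x, ENNReal.ofReal (gw (cw u τ) x)
        * ENNReal.ofReal (gk ν (T' - τ) (x c - y))
        = ENNReal.ofReal ν⁻¹ * ENNReal.ofReal
          (∫ τ in Ioc t₀ s, ν * dsW (cw u τ) (wg (fun _ => 1) ν c T' y τ)) := by
      rw [ofReal_integral_eq_lintegral_ofReal i1
        (Eventually.of_forall fun τ => mul_nonneg hν.le (dsW_nonneg (hg0 τ))),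
        ← lintegral_const_mul' _ _ ENNReal.ofReal_ne_top]
      refine setLIntegral_congr_fun measurableSet_Ioc fun τ hτ => ?_
      have hτ' := Ioc_subset_Icc_self hτ
      rw [← ENNReal.ofReal_mul (by positivity), ← mul_assoc, inv_mul_cancel₀ hν.ne', one_mul,
        dsW_lint (hw τ hτ') (hg τ hτ') (hg0 τ)]
      simp only [e0]
    rw [e2, ← ENNReal.ofReal_mul (by positivity)]
    apply ENNReal.ofReal_le_ofReal
    have h4 : 2 * δ * ∫ τ in Ioc t₀ s, ν * dsW (cw u τ) (wg (fun _ => 1) ν c T' y τ) ≤ R₀ := by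
      linarith
    have h5 : ∫ τ in Ioc t₀ s, ν * dsW (cw u τ) (wg (fun _ => 1) ν c T' y τ) ≤ R₀ / (2 * δ) := by
      rw [le_div_iff₀ (by positivity)]
      linarith
    calc ν⁻¹ * ∫ τ in Ioc t₀ s, ν * dsW (cw u τ) (wg (fun _ => 1) ν c T' y τ)
        ≤ ν⁻¹ * (R₀ / (2 * δ)) := mul_le_mul_of_nonneg_left h5 (by positivity)
      _ = R₀ / (2 * δ * ν) := by field_simp
      _ ≤ _ := by linarith

end

end Pool.Agent.H305.PL
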