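import Pool.Agent.H305.PL.LC

/-!
The inflow of energy.
-/

set_option autoImplicit false

open MeasureTheory Set Metric Filter Topology
open scoped ContDiff ENNReal

namespace Pool.Agent.H305.PL

open H459R3.NS W221.NS Pool.Agent.V1183.PM Pool.Agent.H305.OS Pool.Agent.H305.SL

/-- `w · ∇ (|w|² / 2 + q)`. -/
noncomputable def wk (w : Fin 3 → V → ℝ) (q : V → ℝ) (x : V) : ℝ :=
  ∑ i, (nl w i x * w i x + H459R3.NS.pd i q x * w i x)

section
variable {w : Fin 3 → V → ℝ} {q Φ : V → ℝ}

lemma wk_int (hw : ∀ i, HF (w i)) (hq : HF q) : Integrable (wk w q) :=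
  integrable_finsetSum _ fun i _ =>
    ((nl_HF hw i).ip_int (hw i)).add ((hq.pd i).ip_int (hw i))

lemma gw_int (hw : ∀ i, HF (w i)) : Integrable (gw w) := by
  have i1 : ∀ i k, Integrable fun x => H459R3.NS.pd k (w i) x ^ 2 := fun i k => by
    simpa using sqB_int ((hw i).pd k) BF_one
  exact integrable_finsetSum _ fun i _ => integrable_finsetSum _ fun k _ => i1 i k

lemma flW_wk (hw : ∀ i, HF (w i)) (hdiv : ∀ x, ∑ i, H459R3.NS.pd i (w i) x = 0) (hq : HF q)
    (hΦ : BF Φ) : flW w q Φ = -(2 * ∫ x, wk w q x * Φ x) := by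
  obtain ⟨D, hD⟩ : ∃ D : V → ℝ, D = fun x => ∑ j, w j x * H459R3.NS.pd j Φ x := ⟨_, rfl⟩
  have hDF : HF D := by
    rw [hD]
    exact HF.sum fun j => SL.HF.mulB (hw j) (hΦ.pd j)
  have t : ∀ i, ∫ x, w i x ^ 2 * D x = -(2 * ip (nl w i) (fun x => w i x * Φ x)) := by
    intro i
    have := tr_id hw hdiv (hw i) hΦ
    rw [hD]
    have e : nl w i = fun x => ∑ j, w j x * H459R3.NS.pd j (w i) x := rfl
    rw [e]
    linarith
  have pr := pr_id hw hdiv hq hΦ
  have iw : ∀ i, Integrable fun x => w i x ^ 2 * D x := fun i =>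
    (((hw i).mul (hw i)).ip_int hDF).congr (Eventually.of_forall fun x => by simp only; ring)
  have iq : Integrable fun x => q x * D x := hq.ip_int hDF
  have e1 : flW w q Φ = (∑ i, ∫ x, w i x ^ 2 * D x) + 2 * ∫ x, q x * D x := by
    unfold flW
    rw [← integral_const_mul, ← integral_finsetSum _ fun i _ => iw i,
      ← integral_add (integrable_finsetSum _ fun i _ => iw i) (iq.const_mul 2)]
    congr 1
    funext x
    rw [hD]
    simp only [Finset.sum_mul, add_mul, mul_assoc]
  have j1 : ∀ i, Integrable fun x => nl w i x * (w i x * Φ x) := fun i =>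
    (nl_HF hw i).ip_int (SL.HF.mulB (hw i) hΦ)
  have j2 : ∀ i, Integrable fun x => H459R3.NS.pd i q x * (w i x * Φ x) := fun i =>
    (hq.pd i).ip_int (SL.HF.mulB (hw i) hΦ)
  have e2 : ∫ x, wk w q x * Φ x
      = ∑ i, ip (nl w i) (fun x => w i x * Φ x)
        + ∑ i, ip (H459R3.NS.pd i q) (fun x => w i x * Φ x) := by
    unfold ip
    rw [← integral_finsetSum _ fun i _ => j1 i, ← integral_finsetSum _ fun i _ => j2 i,
      ← integral_add (integrable_finsetSum _ fun i _ => j1 i) (integrable_finsetSum _ fun i _ => j2 i)]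
    congr 1
    funext x
    unfold wk
    rw [Finset.sum_mul, ← Finset.sum_add_distrib]
    refine Finset.sum_congr rfl fun i _ => ?_
    ring
  rw [e1, e2, pr, Finset.sum_congr rfl fun i _ => t i, Finset.sum_neg_distrib, ← Finset.mul_sum, hD]
  ring

end

end Pool.Agent.H305.PL
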